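import Pool.Agent.MP_3d209c_an.H71.Powers

/-! Pairs of real functionals without common zero on the polynomials hyperbolic in one
direction. -/

open Finset Set Filter Topology

namespace Pool.Agent.MP_3d209c_an.H71

variable {n : ℕ}

theorem factor_plane {f : MvPolynomial (Fin n) ℝ} {d : ℕ} (hd : f.IsHomogeneous d)
    {e : Fin n → ℝ} (hf : Hyp e f) (α : Fin n → ℝ) :
    ∃ ρ : Fin d → ℝ, ∀ u v : ℝ, MvPolynomial.eval (u • e + v • α) f
      = MvPolynomial.eval e f * ∏ i, (u + ρ i * v) := by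
  have hg := good_of_mem (V := {e}) (g := f) (Or.inl ⟨⟨d, hd⟩, fun x hx => hx ▸ hf⟩) rfl α
  set p := pl (fun i => (e i : ℂ)) (fun i => (α i : ℂ)) f with hp
  have hp0 : p.eval 0 = ((MvPolynomial.eval e f : ℝ) : ℂ) := by
    rw [hp, eval_pl]; simp only [zero_mul, add_zero, aeval_ofReal]
  have hp0' : p.eval 0 ≠ 0 := by rw [hp0]; exact_mod_cast hf.1
  obtain ⟨ρ, hρ⟩ := factor_univariate d p (natDegree_pl hd _ _) hp0' fun z hz => by
    rcases hg with hg | hg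
    · exact absurd (by rw [hg]; simp) hp0'
    · by_contra h
      exact hg z (Or.inl h) hz
  refine ⟨ρ, fun u v => ?_⟩
  have h1 : (fun u : ℝ => MvPolynomial.eval (u • e + v • α) f)
      = fun u => MvPolynomial.eval e f * ∏ i, (u + ρ i * v) := by
    refine Continuous.ext_on (dense_compl_singleton (0 : ℝ))
      ((MvPolynomial.continuous_eval f).comp (by fun_prop)) (by fun_prop) fun u hu => ?_
    have hu0 : (u : ℂ) ≠ 0 := by exact_mod_cast hu
    have h2 := hρ ((v : ℂ) / u)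
    rw [hp0, hp, eval_pl] at h2
    have h3 := aeval_scale hd (u : ℂ) fun i => (e i : ℂ) + (v : ℂ) / u * α i
    have h4 : (fun i => (u : ℂ) * ((e i : ℂ) + (v : ℂ) / u * α i))
        = fun i => (((u • e + v • α) i : ℝ) : ℂ) := by
      ext i
      simp only [Pi.add_apply, Pi.smul_apply, smul_eq_mul, Complex.ofReal_add,
        Complex.ofReal_mul]
      field_simp
    rw [h4, aeval_ofReal, h2] at h3
    apply Complex.ofReal_injective
    simp only [h3, Complex.ofReal_mul, Complex.ofReal_prod, Complex.ofReal_add]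
    have h5 : ∏ i, ((u : ℂ) + ρ i * v) = ∏ i : Fin d, ((u : ℂ) * (1 + ρ i * ((v : ℂ) / u))) :=
      Finset.prod_congr rfl fun i _ => by field_simp
    rw [h5, Finset.prod_mul_distrib, Finset.prod_const, Finset.card_univ, Fintype.card_fin]
    ring
  exact congrFun h1 u

theorem eventually_dot {e : Fin n → ℝ} (he : e ≠ 0) : ∀ᶠ l in 𝓝 e, l ⬝ᵥ e ≠ 0 := by
  have : Continuous fun l : Fin n → ℝ => l ⬝ᵥ e := by fun_prop
  exact this.continuousAt.eventually_ne (mt dotProduct_self_eq_zero.1 he)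

theorem eventually_dot2 {e : Fin n → ℝ} (he : e ≠ 0) :
    ∀ᶠ p : (Fin n → ℝ) × (Fin n → ℝ) in 𝓝 (e, e), p.1 ⬝ᵥ e ≠ 0 ∧ p.2 ⬝ᵥ e ≠ 0 :=
  (continuousAt_fst.eventually (eventually_dot he)).and
    (continuousAt_snd.eventually (eventually_dot he))

theorem real_lemma (j : ℕ) (C : MvPolynomial (Fin n) ℝ →ₗ[ℝ] ℝ) {e : Fin n → ℝ} (he : e ≠ 0)
    (h : ∀ l1 l, l1 ⬝ᵥ e ≠ 0 → l ⬝ᵥ e ≠ 0 → C (lin l1 * lin l ^ j) ≠ 0) {m : Fin n → ℝ}
    (hm : m ⬝ᵥ e = 0) (l : Fin n → ℝ) : C (lin m * lin l ^ j) = 0 := by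
  refine an_zero (analytic_pow' j C (lin m)) ((eventually_dot he).mono fun l hl => ?_) l
  by_contra hc
  refine h (l - (C (lin l * lin l ^ j) / C (lin m * lin l ^ j)) • m) l (by simpa [hm] using hl)
    hl ?_
  rw [lin_sub, lin_smul, sub_mul, smul_mul_assoc, map_sub, map_smul, smul_eq_mul]
  field_simp
  ring

theorem dual_lemma (k : ℕ) (A B : MvPolynomial (Fin n) ℝ →ₗ[ℝ] ℝ) {e : Fin n → ℝ} (he : e ≠ 0)
    (h1 : ∀ l1 l2 l, l1 ⬝ᵥ e ≠ 0 → l2 ⬝ᵥ e ≠ 0 → l ⬝ᵥ e ≠ 0 →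
      ¬ (A (lin l1 * (lin l2 * lin l ^ k)) = 0 ∧ B (lin l1 * (lin l2 * lin l ^ k)) = 0))
    (h2 : ∀ l0 m, l0 ⬝ᵥ e = 1 → m ⬝ᵥ e = 0 → ∀ ρ : Fin (k + 1 + 1) → ℝ,
      ¬ (A (F (lin l0) (lin m) ρ) = 0 ∧ B (F (lin l0) (lin m) ρ) = 0))
    {f : MvPolynomial (Fin n) ℝ} (hf : f.IsHomogeneous (k + 1 + 1)) (hyp : Hyp e f) :
    ¬ (A f = 0 ∧ B f = 0) := by
  rintro ⟨hA, hB⟩
  obtain ⟨l0, h0⟩ : ∃ l0 : Fin n → ℝ, l0 ⬝ᵥ e = 1 := ⟨(e ⬝ᵥ e)⁻¹ • e, by
    rw [smul_dotProduct, smul_eq_mul, inv_mul_cancel₀ (mt dotProduct_self_eq_zero.1 he)]⟩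
  have hhom : ∀ l1 l : Fin n → ℝ, (lin l1 * lin l ^ (k + 1)).IsHomogeneous (k + 1 + 1) := by
    intro l1 l
    have := (lin_homogeneous l1).mul ((lin_homogeneous l).pow (k + 1))
    convert this using 1
    omega
  have h1' : ∀ l1 l, l1 ⬝ᵥ e ≠ 0 → l ⬝ᵥ e ≠ 0 →
      ¬ (A (lin l1 * lin l ^ (k + 1)) = 0 ∧ B (lin l1 * lin l ^ (k + 1)) = 0) := by
    intro l1 l e1 e2
    rw [pow_succ']
    exact h1 l1 l l e1 e2 e2
  let ml : (MvPolynomial (Fin n) ℝ →ₗ[ℝ] ℝ) → (Fin n → ℝ) → MvPolynomial (Fin n) ℝ →ₗ[ℝ] ℝ :=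
    fun C m => C ∘ₗ LinearMap.mulLeft ℝ (lin m)
  have hdet : ∀ m m', m ⬝ᵥ e = 0 → m' ⬝ᵥ e = 0 → ∀ u l,
      A (lin m * (lin u * lin l ^ k)) * B (lin m' * (lin u * lin l ^ k))
        - A (lin m' * (lin u * lin l ^ k)) * B (lin m * (lin u * lin l ^ k)) = 0 := by
    intro m m' hm hm' u l
    refine an_zero (f := fun p : (Fin n → ℝ) × (Fin n → ℝ) =>
      ml A m (lin p.1 * lin p.2 ^ k) * ml B m' (lin p.1 * lin p.2 ^ k)
        - ml A m' (lin p.1 * lin p.2 ^ k) * ml B m (lin p.1 * lin p.2 ^ k))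
      (fun x => ((analytic_pair k _ x).mul (analytic_pair k _ x)).sub
        ((analytic_pair k _ x).mul (analytic_pair k _ x)))
      ((eventually_dot2 he).mono fun p hp => ?_) (u, l)
    by_contra hD
    simp only [ml, LinearMap.comp_apply, LinearMap.mulLeft_apply] at hD
    set G := lin p.1 * lin p.2 ^ k
    set D := A (lin m * G) * B (lin m' * G) - A (lin m' * G) * B (lin m * G) with hD'
    refine h1 (l0 + ((A (lin m' * G) * B (lin l0 * G) - A (lin l0 * G) * B (lin m' * G)) / D) • m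
      + ((A (lin l0 * G) * B (lin m * G) - A (lin m * G) * B (lin l0 * G)) / D) • m') p.1 p.2
      (by simp [h0, hm, hm']) hp.1 hp.2 ⟨?_, ?_⟩
    · simp only [lin_add, lin_smul, add_mul, smul_mul_assoc, map_add, map_smul, smul_eq_mul]
      field_simp
      rw [hD']; ring
    · simp only [lin_add, lin_smul, add_mul, smul_mul_assoc, map_add, map_smul, smul_eq_mul]
      field_simp
      rw [hD']; ring
  have hstar : ∀ m m', m ⬝ᵥ e = 0 → m' ⬝ᵥ e = 0 → ∀ l,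
      A (lin m * lin l ^ (k + 1)) * B (lin m' * lin l ^ (k + 1))
        - A (lin m' * lin l ^ (k + 1)) * B (lin m * lin l ^ (k + 1)) = 0 := by
    intro m m' hm hm' l
    rw [pow_succ']
    exact hdet m m' hm hm' l l
  by_cases hb : ∀ m, m ⬝ᵥ e = 0 → ∀ l, B (lin m * lin l ^ (k + 1)) = 0
  · have e1 := eval_of_perp (k + 1) B h0 hb
    have e2 : B (lin l0 ^ (k + 1 + 1)) = 0 :=
      (mul_eq_zero.1 ((e1 f hf).symm.trans hB)).resolve_left hyp.1
    have e3 := eval_of_perp (k + 1) A h0 (fun m hm l => real_lemma (k + 1) A he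
      (fun l1 l g1 g2 g3 => h1' l1 l g1 g2 ⟨g3, by rw [e1 _ (hhom l1 l), e2, mul_zero]⟩) hm l) f hf
    have e4 : A (lin l0 ^ (k + 1 + 1)) = 0 :=
      (mul_eq_zero.1 (e3.symm.trans hA)).resolve_left hyp.1
    rw [pow_succ'] at e2 e4
    exact h1' l0 l0 (by simp [h0]) (by simp [h0]) ⟨e4, e2⟩
  push Not at hb
  obtain ⟨m0, hm0, l1, hb⟩ := hb
  let W : (MvPolynomial (Fin n) ℝ →ₗ[ℝ] ℝ) → (Fin n → ℝ) × (Fin n → ℝ) → ℝ := fun C p =>
    C (lin p.1 * lin p.2 ^ k) * ml B m0 (lin p.2 ^ (k + 1))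
      - C (lin p.2 ^ (k + 1)) * ml B m0 (lin p.1 * lin p.2 ^ k)
  have hWan : ∀ C x, AnalyticAt ℝ (W C) x := fun C x =>
    ((analytic_pair k _ x).mul (analytic_snd _ _ x)).sub
      ((analytic_snd _ _ x).mul (analytic_pair k _ x))
  have hWprop : ∀ C, (∀ p, W C p = 0) → ∀ l, C (lin l ^ (k + 1)) * B (lin m0 * lin l1 ^ (k + 1))
      = C (lin l1 ^ (k + 1)) * B (lin m0 * lin l ^ (k + 1)) := fun C hC l =>
    prop_of_wronskian k C (ml B m0) (fun u l => sub_eq_zero.1 (hC (u, l))) l l1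
  have hWW : ∀ m, m ⬝ᵥ e = 0 → ∀ p, W (ml A m0) p * W (ml B m) p = 0 := by
    intro m hm ⟨u, l⟩
    have E1 := hdet m m0 hm hm0 u l
    have E2 := hdet m m0 hm hm0 l l
    have E3 := hdet m m0 hm hm0 (u + l) l
    simp only [lin_add, add_mul, mul_add, map_add] at E3
    simp only [W, ml, LinearMap.comp_apply, LinearMap.mulLeft_apply, pow_succ']
    linear_combination (-B (lin m0 * (lin l * lin l ^ k)) ^ 2) * E1
      - B (lin m0 * (lin u * lin l ^ k)) ^ 2 * E2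
      + B (lin m0 * (lin l * lin l ^ k)) * B (lin m0 * (lin u * lin l ^ k)) * (E3 - E1 - E2)
  by_cases hW : ∀ p, W (ml A m0) p = 0
  · have e1 := hWprop _ hW
    set c := A (lin m0 * lin l1 ^ (k + 1)) / B (lin m0 * lin l1 ^ (k + 1)) with hc
    have e2 : ∀ m, m ⬝ᵥ e = 0 → ∀ l, (A - c • B) (lin m * lin l ^ (k + 1)) = 0 := by
      intro m hm l
      refine an_cancel (analytic_pow' (k + 1) B (lin m0))
        (analytic_pow' (k + 1) (A - c • B) (lin m)) (fun l => ?_) hb l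
      have g1 := e1 l
      have g2 := hstar m m0 hm hm0 l
      simp only [ml, LinearMap.comp_apply, LinearMap.mulLeft_apply] at g1
      simp only [LinearMap.sub_apply, LinearMap.smul_apply, smul_eq_mul, hc]
      field_simp
      linear_combination B (lin m0 * lin l1 ^ (k + 1)) * g2 + B (lin m * lin l ^ (k + 1)) * g1
    have e3 := eval_of_perp (k + 1) (A - c • B) h0 e2
    have e4 : (A - c • B) (lin l0 ^ (k + 1 + 1)) = 0 :=
      (mul_eq_zero.1 ((e3 f hf).symm.trans (by simp [hA, hB]))).resolve_left hyp.1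
    refine hb (real_lemma (k + 1) B he (fun l1 l g1 g2 g3 => h1' l1 l g1 g2 ⟨?_, g3⟩) hm0 l1)
    have := e3 _ (hhom l1 l)
    rw [e4, mul_zero] at this
    simpa [g3] using this
  push Not at hW
  obtain ⟨p0, hW⟩ := hW
  let γ : Fin n → ℝ := fun i =>
    B (MvPolynomial.X i * lin l1 ^ (k + 1)) / B (lin m0 * lin l1 ^ (k + 1))
  have hγ : ∀ m, m ⬝ᵥ γ = B (lin m * lin l1 ^ (k + 1)) / B (lin m0 * lin l1 ^ (k + 1)) := by
    intro m
    rw [map_lin_mul B m, Finset.sum_div, dotProduct]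
    exact Finset.sum_congr rfl fun i _ => by simp only [γ]; ring
  have hBz : ∀ m, m ⬝ᵥ e = 0 → m ⬝ᵥ γ = 0 → ∀ l, B (lin m * lin l ^ (k + 1)) = 0 := by
    intro m hm hm' l
    have g1 := hWprop (ml B m) (an_cancel (hWan _) (hWan _) (hWW m hm) hW) l
    simp only [ml, LinearMap.comp_apply, LinearMap.mulLeft_apply] at g1
    rw [hγ, div_eq_zero_iff, or_iff_left hb] at hm'
    rw [hm', zero_mul] at g1
    exact (mul_eq_zero.1 g1).resolve_right hb
  have hAz : ∀ m, m ⬝ᵥ e = 0 → m ⬝ᵥ γ = 0 → ∀ l, A (lin m * lin l ^ (k + 1)) = 0 := by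
    intro m hm hm' l
    refine an_cancel (analytic_pow' (k + 1) B (lin m0)) (analytic_pow' (k + 1) A (lin m))
      (fun l => ?_) hb l
    have g2 := hstar m m0 hm hm0 l
    rw [hBz m hm hm' l] at g2
    linarith
  have hγ0 : m0 ⬝ᵥ γ = 1 := by rw [hγ, div_self hb]
  let α : Fin n → ℝ := γ - (l0 ⬝ᵥ γ) • e
  let Pr : MvPolynomial (Fin n) ℝ →ₐ[ℝ] MvPolynomial (Fin n) ℝ :=
    MvPolynomial.aeval fun i => e i • lin l0 + α i • lin m0
  have hPr : ∀ (x : Fin n → ℝ) (g : MvPolynomial (Fin n) ℝ), MvPolynomial.eval x (Pr g)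
      = MvPolynomial.eval ((l0 ⬝ᵥ x) • e + (m0 ⬝ᵥ x) • α) g := by
    intro x g
    induction g using MvPolynomial.induction_on with
    | C a => simp [Pr]
    | add p q hp hq => simp [hp, hq]
    | mul_X p i hp =>
      simp only [map_mul, hp, MvPolynomial.eval_X]
      simp only [Pr, MvPolynomial.aeval_X, map_add, MvPolynomial.smul_eval, eval_lin,
        Pi.add_apply, Pi.smul_apply, smul_eq_mul]
      ring
  have hPrl : ∀ l, Pr (lin l) = lin ((l ⬝ᵥ e) • l0 + (l ⬝ᵥ α) • m0) := by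
    intro l
    refine MvPolynomial.funext fun x => ?_
    rw [hPr, eval_lin, eval_lin]
    simp only [dotProduct_add, dotProduct_smul, add_dotProduct, smul_dotProduct, smul_eq_mul]
    ring
  have hinv : ∀ C : MvPolynomial (Fin n) ℝ →ₗ[ℝ] ℝ,
      (∀ m, m ⬝ᵥ e = 0 → m ⬝ᵥ γ = 0 → ∀ l, C (lin m * lin l ^ (k + 1)) = 0) → C (Pr f) = C f := by
    intro C hC
    have := span_pow (k + 1 + 1) (C ∘ₗ Pr.toLinearMap - C) (fun l => ?_) f hf
    · simpa [sub_eq_zero] using this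
    · simp only [LinearMap.sub_apply, LinearMap.comp_apply, AlgHom.toLinearMap_apply, map_pow,
        hPrl, sub_eq_zero]
      refine (pow_add_perp (k + 1) C (hC _ ?_ ?_)).symm
      · simp [h0, hm0]
      · simp only [sub_dotProduct, add_dotProduct, smul_dotProduct, smul_eq_mul, hγ0, α,
          dotProduct_sub, dotProduct_smul]
        ring
  obtain ⟨ρ, hρ⟩ := factor_plane hf hyp α
  have hfac : Pr f = MvPolynomial.eval e f • F (lin l0) (lin m0) ρ := by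
    refine MvPolynomial.funext fun x => ?_
    rw [hPr, hρ, MvPolynomial.smul_eval, F, map_prod]
    simp only [map_add, MvPolynomial.smul_eval, eval_lin]
  have gA := hinv A hAz
  have gB := hinv B hBz
  rw [hfac, map_smul, smul_eq_mul] at gA gB
  exact h2 l0 m0 h0 hm0 ρ ⟨(mul_eq_zero.1 (gA.trans hA)).resolve_left hyp.1,
    (mul_eq_zero.1 (gB.trans hB)).resolve_left hyp.1⟩

end Pool.Agent.MP_3d209c_an.H71
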