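import Mathlib

/-! Simultaneous one-sided perturbation of several simple real roots. -/

open Finset Set Filter Topology Polynomial

namespace Pool.Agent.MP_3d209c_an.H71

variable {ι : Type*} [DecidableEq ι]

theorem multi_root_real (P : Finset ι) (x β ε : ι → ℝ) (hx : Set.InjOn x P)
    (hε : ∀ p ∈ P, ε p ≠ 0) (hβ : ∀ p ∈ P, 0 ≤ β p * ε p) :
    ∃ ρ : ℝ, 0 < ρ ∧ ∃ r : ι → ℝ, (∀ p ∈ P, r p ∈ uIcc (x p) (x p + ε p)) ∧
      ∀ y : ℝ, ∏ p ∈ P, (y + r p)
        = ∏ p ∈ P, (y + x p) + ρ * ∑ p ∈ P, β p * ∏ q ∈ P.erase p, (y + x q) := by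
  have hPi : ∀ p ∈ P, ∏ q ∈ P.erase p, (-x p + x q) ≠ 0 := by
    intro p hp
    refine Finset.prod_ne_zero_iff.2 fun q hq h => ?_
    exact Finset.ne_of_mem_erase hq (hx (Finset.mem_of_mem_erase hq) hp (by linarith))
  have e1 : ∀ᶠ δ : ℝ in 𝓝 0, ∀ p ∈ P, ∀ q ∈ P, p ≠ q → δ * (|ε p| + |ε q|) < |x p - x q| := by
    refine (eventually_all_finset P).2 fun p hp => (eventually_all_finset P).2 fun q hq => ?_
    by_cases h : p = q
    · exact Eventually.of_forall fun δ h' => absurd h h'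
    · have h0 : 0 < |x p - x q| := abs_pos.2 (sub_ne_zero.2 fun h' => h (hx hp hq h'))
      have : Continuous fun δ : ℝ => δ * (|ε p| + |ε q|) := by fun_prop
      filter_upwards [this.continuousAt.eventually (gt_mem_nhds (a := |x p - x q|)
        (by simpa only [zero_mul] using h0))] with δ hδ _
      exact hδ
  have e2 : ∀ᶠ δ : ℝ in 𝓝 0, ∀ p ∈ P,
      0 < (∏ q ∈ P.erase p, (-x p + x q)) * ∏ q ∈ P.erase p, (-(x p + δ * ε p) + x q) := by
    refine (eventually_all_finset P).2 fun p hp => ?_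
    have : Continuous fun δ : ℝ =>
        (∏ q ∈ P.erase p, (-x p + x q)) * ∏ q ∈ P.erase p, (-(x p + δ * ε p) + x q) := by
      fun_prop
    exact this.continuousAt.eventually (lt_mem_nhds (by
      simpa using mul_self_pos.2 (hPi p hp)))
  have e3 : ∀ᶠ δ : ℝ in 𝓝 0, δ ≤ 1 := Iic_mem_nhds one_pos
  obtain ⟨δ, ⟨d1, d2, d3⟩, hδ⟩ := (((e1.and (e2.and e3)).filter_mono
    (nhdsWithin_le_nhds (s := Ioi 0))).and self_mem_nhdsWithin).exists
  have hδ0 : 0 < δ := hδ
  let f : ℝ → ℝ → ℝ := fun ρ y =>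
    ∏ p ∈ P, (y + x p) + ρ * ∑ p ∈ P, β p * ∏ q ∈ P.erase p, (y + x q)
  have e4 : ∀ᶠ ρ : ℝ in 𝓝 0, ∀ p ∈ P,
      f ρ (-(x p + δ * ε p)) * (ε p * ∏ q ∈ P.erase p, (-x p + x q)) < 0 := by
    refine (eventually_all_finset P).2 fun p hp => ?_
    have : Continuous fun ρ : ℝ =>
        f ρ (-(x p + δ * ε p)) * (ε p * ∏ q ∈ P.erase p, (-x p + x q)) := by
      simp only [f]; fun_prop
    refine this.continuousAt.eventually (gt_mem_nhds ?_)
    simp only [f, zero_mul, add_zero]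
    rw [← Finset.mul_prod_erase P _ hp]
    have h1 := d2 p hp
    have h2 : 0 < δ * ε p ^ 2 := mul_pos hδ0 (sq_pos_of_ne_zero (hε p hp))
    nlinarith [mul_pos h1 h2]
  obtain ⟨ρ, hρ, hρ0⟩ := ((e4.filter_mono
    (nhdsWithin_le_nhds (s := Ioi 0))).and self_mem_nhdsWithin).exists
  have hρ0' : 0 < ρ := hρ0
  have hroot : ∀ p ∈ P, ∃ r ∈ uIcc (x p) (x p + δ * ε p), f ρ (-r) = 0 := by
    intro p hp
    have hc : Continuous fun r : ℝ =>
        f ρ (-r) * (ε p * ∏ q ∈ P.erase p, (-x p + x q)) := by simp only [f]; fun_prop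
    have h0 : f ρ (-x p) = ρ * (β p * ∏ q ∈ P.erase p, (-x p + x q)) := by
      simp only [f]
      rw [Finset.prod_eq_zero hp (by ring), zero_add, Finset.sum_eq_single_of_mem p hp]
      intro q hq hqp
      rw [Finset.prod_eq_zero (Finset.mem_erase.2 ⟨hqp.symm, hp⟩) (by ring), mul_zero]
    have h1 : 0 ≤ f ρ (-x p) * (ε p * ∏ q ∈ P.erase p, (-x p + x q)) := by
      rw [h0]
      have := mul_nonneg (mul_nonneg hρ0'.le (hβ p hp))
        (sq_nonneg (∏ q ∈ P.erase p, (-x p + x q)))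
      nlinarith
    obtain ⟨r, hr, hr0⟩ := intermediate_value_uIcc (a := x p) (b := x p + δ * ε p)
      hc.continuousOn (mem_uIcc_of_ge (hρ p hp).le h1)
    exact ⟨r, hr, (mul_eq_zero.1 hr0).resolve_right (mul_ne_zero (hε p hp) (hPi p hp))⟩
  choose! r hr hr0 using hroot
  have hdist : ∀ p ∈ P, |r p - x p| ≤ δ * |ε p| := by
    intro p hp
    have := abs_sub_left_of_mem_uIcc (hr p hp)
    rwa [add_sub_cancel_left, abs_mul, abs_of_pos hδ0] at this
  have hinj : Set.InjOn (fun p => -r p) P := by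
    intro p hp q hq h
    by_contra hpq
    have h1 := d1 p hp q hq hpq
    have h2 := hdist p hp
    have h3 := hdist q hq
    have h4 : r p = r q := neg_injective h
    have h5 : |x p - x q| ≤ |r q - x q| + |r p - x p| := by
      have : x p - x q = (r q - x q) - (r p - x p) := by rw [h4]; ring
      rw [this]; exact abs_sub _ _
    linarith
  refine ⟨ρ, hρ0', r, fun p hp => ?_, fun y => ?_⟩
  · refine uIcc_subset_uIcc left_mem_uIcc ?_ (hr p hp)
    rcases lt_or_gt_of_ne (hε p hp) with h | h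
    · exact mem_uIcc_of_ge (by nlinarith) (by nlinarith)
    · exact mem_uIcc_of_le (by nlinarith) (by nlinarith)
  · let g1 : ℝ[X] := ∏ p ∈ P, (X + C (r p))
    let g0 : ℝ[X] := ∏ p ∈ P, (X + C (x p))
    let g2 : ℝ[X] := C ρ * ∑ p ∈ P, C (β p) * ∏ q ∈ P.erase p, (X + C (x q))
    have hdeg : ∀ (Q : Finset ι) (z : ι → ℝ),
        (∏ p ∈ Q, (X + C (z p)) : ℝ[X]).degree = Q.card := by
      intro Q z
      rw [degree_prod_of_monic _ _ fun p _ => monic_X_add_C _]
      simp [degree_X_add_C]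
    have hmon : ∀ (z : ι → ℝ), (∏ p ∈ P, (X + C (z p)) : ℝ[X]).Monic := fun z =>
      monic_prod_of_monic _ _ fun p _ => monic_X_add_C _
    have hev : ∀ y, (g0 + g2).eval y = f ρ y := by
      intro y
      simp [g0, g2, f, eval_prod, eval_finsetSum]
    have key : g1 = g0 + g2 := by
      refine Polynomial.eq_of_degree_sub_lt_of_eval_index_eq P hinj ?_ fun p hp => ?_
      · rw [← sub_sub]
        refine (degree_sub_le _ _).trans_lt (max_lt ?_ ?_)
        · rw [← hdeg P r]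
          exact degree_sub_lt_left (by rw [hdeg, hdeg]) (hmon r).ne_zero
            (by rw [(hmon r).leadingCoeff, (hmon x).leadingCoeff])
        · simp only [g2]
          rw [C_mul']
          refine (degree_smul_le _ _).trans_lt ((degree_sum_le _ _).trans_lt ?_)
          rw [Finset.sup_lt_iff (by exact WithBot.bot_lt_coe _)]
          intro p hp
          rw [C_mul']
          refine (degree_smul_le _ _).trans_lt ?_
          rw [hdeg]
          exact_mod_cast Finset.card_erase_lt_of_mem hp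
      · rw [hev, hr0 p hp]
        simp only [g1, eval_prod]
        exact Finset.prod_eq_zero hp (by simp)
    have := congrArg (eval y) key
    rw [hev] at this
    simpa [g1, eval_prod] using this

theorem multi_root {A : Type*} [CommRing A] [Algebra ℝ A] (m0 m1 : A) (P : Finset ι)
    (x β ε : ι → ℝ) (hx : Set.InjOn x P) (hε : ∀ p ∈ P, ε p ≠ 0) (hβ : ∀ p ∈ P, 0 ≤ β p * ε p) :
    ∃ ρ : ℝ, 0 < ρ ∧ ∃ r : ι → ℝ, (∀ p ∈ P, r p ∈ uIcc (x p) (x p + ε p)) ∧
      ∏ p ∈ P, (m0 + r p • m1) = ∏ p ∈ P, (m0 + x p • m1)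
        + ρ • ∑ p ∈ P, β p • (m1 * ∏ q ∈ P.erase p, (m0 + x q • m1)) := by
  obtain ⟨ρ, hρ, r, hr, h⟩ := multi_root_real P x β ε hx hε hβ
  refine ⟨ρ, hρ, r, hr, ?_⟩
  have key : (∏ p ∈ P, (MvPolynomial.X 0 + r p • MvPolynomial.X 1) : MvPolynomial (Fin 2) ℝ)
      = ∏ p ∈ P, (MvPolynomial.X 0 + x p • MvPolynomial.X 1) + ρ • ∑ p ∈ P, β p •
        (MvPolynomial.X 1 * ∏ q ∈ P.erase p, (MvPolynomial.X 0 + x q • MvPolynomial.X 1)) := by
    refine MvPolynomial.funext fun z => ?_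
    simp only [map_prod, map_add, MvPolynomial.smul_eval, MvPolynomial.eval_X, map_sum, map_mul]
    by_cases hz : z 1 = 0
    · simp [hz]
    · have hs : ∀ (Q : Finset ι) (w : ι → ℝ), ∏ p ∈ Q, (z 0 + w p * z 1)
          = z 1 ^ Q.card * ∏ p ∈ Q, (z 0 / z 1 + w p) := by
        intro Q w
        rw [← Finset.prod_const, ← Finset.prod_mul_distrib]
        exact Finset.prod_congr rfl fun p _ => by field_simp
      simp only [hs]
      rw [h, mul_add, Finset.mul_sum, Finset.mul_sum, Finset.mul_sum]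
      congr 1
      refine Finset.sum_congr rfl fun p hp => ?_
      rw [← Finset.card_erase_add_one hp]
      ring
  have := congrArg (MvPolynomial.aeval (R := ℝ) ![m0, m1]) key
  simpa [map_prod, map_sum] using this

end Pool.Agent.MP_3d209c_an.H71
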