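import Pool.Agent.MP_3d209c_an.H71.Open
import Pool.Agent.MP_3d209c_an.H71.Roots

/-!
Degenerate limits: the leading terms at a killed point are again images of points of the box.
-/

open Finset Set Filter Topology

namespace Pool.Agent.MP_3d209c_an.H71

variable {A : Type*} [CommRing A] [Algebra ℝ A] {ι : Type*} [Fintype ι] [DecidableEq ι]
  {M : Type*} [AddCommGroup M] [Module ℝ M]

/-- Taylor coefficient of the product at the base point `x`. -/
noncomputable def cS (m0 m1 : A) (x : ι → ℝ) (S : Finset ι) : A :=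
  m1 ^ S.card * ∏ i ∈ univ \ S, (m0 + x i • m1)

theorem F_taylor (m0 m1 : A) (x t : ι → ℝ) :
    F m0 m1 t = ∑ S : Finset ι, (∏ i ∈ S, (t i - x i)) • cS m0 m1 x S := by
  have : F m0 m1 t = ∏ i, ((t i - x i) • m1 + (m0 + x i • m1)) := by
    unfold F; exact Finset.prod_congr rfl fun i _ => by module
  rw [this, Finset.prod_add, Finset.powerset_univ]
  refine Finset.sum_congr rfl fun S _ => ?_
  rw [Finset.prod_smul, smul_mul_assoc, Finset.prod_const, cS]

/-- Minimal index sets whose Taylor coefficient is not killed. -/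
def Mn (m0 m1 : A) (T : A →ₗ[ℝ] M) (x : ι → ℝ) (S : Finset ι) : Prop :=
  Minimal (fun S => T (cS m0 m1 x S) ≠ 0) S

theorem Mn.killed {m0 m1 : A} {T : A →ₗ[ℝ] M} {x : ι → ℝ} {S S' : Finset ι}
    (h : Mn m0 m1 T x S) (h1 : S' ⊆ S) (h2 : S' ≠ S) : T (cS m0 m1 x S') = 0 := by
  by_contra h3
  exact h2 (Finset.Subset.antisymm h1 (h.2 h3 h1))

theorem Mn.image {m0 m1 : A} {T : A →ₗ[ℝ] M} {x : ι → ℝ} {S : Finset ι} (h : Mn m0 m1 T x S)
    {t : ι → ℝ} (ht : ∀ i ∉ S, t i = x i) :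
    T (F m0 m1 t) = (∏ i ∈ S, (t i - x i)) • T (cS m0 m1 x S) := by
  rw [F_taylor m0 m1 x t, map_sum, Finset.sum_eq_single S (fun S' _ hS' => ?_) (by simp),
    map_smul]
  rw [map_smul]
  by_cases h1 : S' ⊆ S
  · rw [h.killed h1 hS', smul_zero]
  · obtain ⟨i, hi, hi'⟩ := Finset.not_subset.1 h1
    rw [Finset.prod_eq_zero hi (by rw [ht i hi', sub_self]), zero_smul]

theorem killed_of_no_min {m0 m1 : A} {T : A →ₗ[ℝ] M} {x : ι → ℝ} {U : Finset ι}
    (h : ∀ S, Mn m0 m1 T x S → ¬ S ⊆ U) {t : ι → ℝ} (ht : ∀ i ∉ U, t i = x i) :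
    T (F m0 m1 t) = 0 := by
  rw [F_taylor m0 m1 x t, map_sum]
  refine Finset.sum_eq_zero fun S _ => ?_
  rw [map_smul]
  by_cases h1 : S ⊆ U
  · by_cases h2 : T (cS m0 m1 x S) = 0
    · rw [h2, smul_zero]
    · obtain ⟨S0, h3, h4⟩ :=
        exists_minimal_le_of_wellFoundedLT (fun S => T (cS m0 m1 x S) ≠ 0) S h2
      exact absurd (Finset.Subset.trans h3 h1) (h S0 h4)
  · obtain ⟨i, hi, hi'⟩ := Finset.not_subset.1 h1
    rw [Finset.prod_eq_zero hi (by rw [ht i hi', sub_self]), zero_smul]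

theorem cS_erase (m0 m1 : A) (x : ι → ℝ) {S : Finset ι} {i : ι} (hi : i ∈ S) :
    cS m0 m1 x (S.erase i)
      = m1 ^ (S.card - 1) * ((m0 + x i • m1) * ∏ k ∈ univ \ S, (m0 + x k • m1)) := by
  rw [cS, Finset.card_erase_of_mem hi, Finset.sdiff_erase (mem_univ i),
    Finset.prod_insert (by simp [hi])]

theorem Mn.same {m0 m1 : A} {T : A →ₗ[ℝ] M} {x : ι → ℝ} {S : Finset ι} (h : Mn m0 m1 T x S)
    {i j : ι} (hi : i ∈ S) (hj : j ∈ S) : x i = x j := by
  by_contra hne
  have e : cS m0 m1 x (S.erase i) - cS m0 m1 x (S.erase j) = (x i - x j) • cS m0 m1 x S := by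
    rw [cS_erase _ _ _ hi, cS_erase _ _ _ hj, cS]
    obtain ⟨k, hk⟩ : ∃ k, S.card = k + 1 :=
      Nat.exists_eq_succ_of_ne_zero (Finset.card_ne_zero_of_mem hi)
    rw [hk, Nat.add_sub_cancel]
    simp only [Algebra.smul_def, map_sub]
    ring
  have := congrArg T e
  rw [map_sub, map_smul, h.killed (Finset.erase_subset _ _) (Finset.erase_ne_self.2 hi),
    h.killed (Finset.erase_subset _ _) (Finset.erase_ne_self.2 hj), sub_self] at this
  exact h.1 ((smul_eq_zero.1 this.symm).resolve_left (sub_ne_zero.2 hne))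

theorem cS_congr (m0 m1 : A) (x : ι → ℝ) {S S' : Finset ι} (hc : S.card = S'.card) {a : ℝ}
    (h1 : ∀ i ∈ S, x i = a) (h2 : ∀ i ∈ S', x i = a) : cS m0 m1 x S = cS m0 m1 x S' := by
  have key : ∀ S S' : Finset ι, (∀ i ∈ S', x i = a) → ∏ i ∈ univ \ S, (m0 + x i • m1)
      = (∏ i ∈ univ \ (S ∪ S'), (m0 + x i • m1)) * (m0 + a • m1) ^ (S' \ S).card := by
    intro S S' h
    have e : ∏ _i ∈ S' \ S, (m0 + a • m1) = ∏ i ∈ S' \ S, (m0 + x i • m1) :=
      Finset.prod_congr rfl fun i hi => by rw [h i (Finset.mem_sdiff.1 hi).1]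
    rw [← Finset.prod_const, e, ← Finset.prod_union]
    · congr 1
      ext i; simp; tauto
    · rw [Finset.disjoint_left]
      intro i hi hi'
      simp at hi hi'
      tauto
  rw [cS, cS, key S S' h2, key S' S h1, hc, Finset.union_comm, Finset.card_sdiff_comm hc]

theorem Mn.eq_cS {m0 m1 : A} {T : A →ₗ[ℝ] M} {x : ι → ℝ} {S S' : Finset ι}
    (h : Mn m0 m1 T x S) (h' : Mn m0 m1 T x S') {i j : ι} (hi : i ∈ S) (hj : j ∈ S')
    (hij : x i = x j) : cS m0 m1 x S = cS m0 m1 x S' := by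
  wlog hle : S.card ≤ S'.card generalizing S S' i j
  · exact (this h' h hj hi hij.symm (not_le.1 hle).le).symm
  obtain ⟨S'', h1, h2⟩ := Finset.exists_subset_card_eq hle
  have e : cS m0 m1 x S = cS m0 m1 x S'' := cS_congr m0 m1 x h2.symm (a := x i)
    (fun k hk => h.same hk hi) fun k hk => (h'.same (h1 hk) hj).trans hij.symm
  by_cases h3 : S'' = S'
  · rw [e, h3]
  · exact absurd (e ▸ h'.killed h1 h3) h.1

omit [DecidableEq ι] in
theorem F_comp_equiv (m0 m1 : A) (z : ι → ℝ) (σ : ι ≃ ι) : F m0 m1 (z ∘ σ) = F m0 m1 z :=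
  Equiv.prod_comp σ fun k => m0 + z k • m1

theorem factor_out (m0 m1 : A) (T : A →ₗ[ℝ] M) (x : ι → ℝ) {U : Finset ι} {p : ι}
    (h : ∀ z : ι → ℝ, (∀ i ∉ U, z i = x i) → T (F m0 m1 z) = 0) :
    ∃ g : M, ∀ z : ι → ℝ, (∀ i ∉ insert p U, z i = x i) →
      T (F m0 m1 z) = (∏ j ∈ insert p U, (z j - x p)) • g := by
  set W := insert p U with hW
  have hvan : ∀ z : ι → ℝ, (∀ i ∉ W, z i = x i) → ∀ j ∈ W, z j = x p → T (F m0 m1 z) = 0 := by
    intro z hz j hj hzj
    rw [← F_comp_equiv m0 m1 z (Equiv.swap j p)]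
    refine h _ fun k hk => ?_
    by_cases h1 : k = p
    · subst h1; simpa using hzj
    · have h2 : k ∉ W := by simp [hW, h1, hk]
      rw [Function.comp_apply, Equiv.swap_apply_of_ne_of_ne (ne_of_mem_of_not_mem hj h2).symm h1, hz k h2]
  refine ⟨T (F m0 m1 (W.piecewise (fun _ => x p + 1) x)), ?_⟩
  have key : ∀ D : Finset ι, D ⊆ W → ∀ z : ι → ℝ, (∀ i ∉ W, z i = x i) →
      (∀ i ∈ W, i ∉ D → z i = x p + 1) → T (F m0 m1 z) = (∏ j ∈ D, (z j - x p)) •
        T (F m0 m1 (W.piecewise (fun _ => x p + 1) x)) := by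
    intro D
    induction D using Finset.induction_on with
    | empty =>
      intro _ z h1 h2
      rw [Finset.prod_empty, one_smul]
      congr 2
      ext i
      by_cases hi : i ∈ W
      · rw [Finset.piecewise_eq_of_mem _ _ _ hi, h2 i hi (by simp)]
      · rw [Finset.piecewise_eq_of_notMem _ _ _ hi, h1 i hi]
    | insert j D hj ih =>
      intro hD z h1 h2
      have hjW : j ∈ W := hD (Finset.mem_insert_self _ _)
      have hup : ∀ y, ∀ i ∉ W, Function.update z j y i = x i := fun y i hi => by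
        rw [Function.update_of_ne (ne_of_mem_of_not_mem hjW hi).symm, h1 i hi]
      have e0 := hvan (Function.update z j (x p)) (hup _) j hjW (by simp)
      have e1 := ih ((Finset.subset_insert _ _).trans hD) (Function.update z j (x p + 1)) (hup _)
        fun i hi hi' => by
          by_cases h3 : i = j
          · subst h3; simp
          · rw [Function.update_of_ne h3]; exact h2 i hi (by simp [h3, hi'])
      have e2 : ∏ k ∈ D, (Function.update z j (x p + 1) k - x p) = ∏ k ∈ D, (z k - x p) :=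
        Finset.prod_congr rfl fun k hk => by
          rw [Function.update_of_ne (ne_of_mem_of_not_mem hk hj)]
      rw [Finset.prod_insert hj, mul_smul, ← e2, ← e1]
      conv_lhs => rw [← Function.update_eq_self j z]
      rw [F_update, map_add, map_smul] at e0
      rw [F_update, F_update, map_add, map_add, map_smul, map_smul,
        eq_neg_of_add_eq_zero_left e0]
      module
  exact fun z hz => key W (Finset.Subset.refl _) z hz fun i hi hi' => absurd hi hi'

theorem Mn.ne_zero {m0 m1 : A} {T : A →ₗ[ℝ] M} {l : M →ₗ[ℝ] ℝ} {a b x : ι → ℝ}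
    (hab : ∀ i, a i < b i) (hN : ∀ t ∈ Icc a b, l (T (F m0 m1 t)) = 0 → T (F m0 m1 t) = 0)
    (hx : x ∈ Icc a b) {S : Finset ι} (h : Mn m0 m1 T x S) : l (T (cS m0 m1 x S)) ≠ 0 := by
  have : ∀ i, ∃ w ∈ Icc (a i) (b i), w ∉ ({x i} : Finset ℝ) := fun i =>
    (Set.Icc_infinite (hab i)).exists_notMem_finset _
  choose w hw hw' using this
  have e := h.image (t := S.piecewise w x) fun i hi => Finset.piecewise_eq_of_notMem _ _ _ hi
  intro h0
  have := hN _ (S.piecewise_mem_Icc_of_mem_of_mem ⟨fun i => (hw i).1, fun i => (hw i).2⟩ hx)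
    (by rw [e, map_smul, h0, smul_zero])
  rw [e] at this
  refine h.1 ((smul_eq_zero.1 this).resolve_left (Finset.prod_ne_zero_iff.2 fun i hi => ?_))
  rw [Finset.piecewise_eq_of_mem _ _ _ hi]
  exact sub_ne_zero.2 (by simpa using hw' i)

open Classical in
theorem construct (m0 m1 : A) (T : A →ₗ[ℝ] M) (l : M →ₗ[ℝ] ℝ) {a b x : ι → ℝ}
    (hab : ∀ i, a i < b i) (hpos : ∀ t ∈ Icc a b, 0 ≤ l (T (F m0 m1 t)))
    (hN : ∀ t ∈ Icc a b, l (T (F m0 m1 t)) = 0 → T (F m0 m1 t) = 0)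
    (hx : x ∈ Icc a b) (h0 : T (F m0 m1 x) = 0) (y : Finset ι → ℝ)
    (hy : ∀ S, Mn m0 m1 T x S → 0 ≤ y S * l (T (cS m0 m1 x S))) :
    ∃ t ∈ Icc a b, ∃ ρ : ℝ, 0 < ρ ∧ T (F m0 m1 t)
      = ρ • ∑ S ∈ univ.filter (Mn m0 m1 T x), y S • T (cS m0 m1 x S) := by
  have hne : ∀ S, Mn m0 m1 T x S → S.Nonempty := by
    intro S hS
    rw [Finset.nonempty_iff_ne_empty]
    rintro rfl
    exact hS.1 (by simpa [cS, F] using h0)
  obtain ⟨P, hPI, hinj, himg⟩ := Finset.exists_subset_injOn_image_eq_of_surjOn (f := x)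
    {i | ∃ S, Mn m0 m1 T x S ∧ i ∈ S}
    ((univ.filter fun i => ∃ S, Mn m0 m1 T x S ∧ i ∈ S).image x) (by
      intro v hv
      simpa using hv)
  have hP : ∀ S, Mn m0 m1 T x S → ∀ i ∈ S, ∃ p ∈ P, x p = x i := by
    intro S hS i hi
    have : x i ∈ P.image x := by
      rw [himg]; exact Finset.mem_image_of_mem _ (by simpa using ⟨S, hS, hi⟩)
    simpa using this
  have hrep : ∀ p ∈ P, ∃ S, Mn m0 m1 T x S ∧ p ∈ S := fun p hp => hPI hp
  choose! rep hrep hrep' using hrep
  have hg : ∀ S, Mn m0 m1 T x S → ∃ p ∈ P, cS m0 m1 x S = cS m0 m1 x (rep p) := by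
    intro S hS
    obtain ⟨i, hi⟩ := hne S hS
    obtain ⟨p, hp, hpi⟩ := hP S hS i hi
    exact ⟨p, hp, hS.eq_cS (hrep p hp) hi (hrep' p hp) hpi.symm⟩
  let U : Finset ι := P.biUnion fun p => (rep p).erase p
  have hU1 : ∀ j ∈ U, ∀ p ∈ P, x j = x p → j ∈ (rep p).erase p := by
    intro j hj p hp h
    obtain ⟨q, hq, hjq⟩ := Finset.mem_biUnion.1 hj
    have : q = p := hinj hq hp
      (((hrep q hq).same (hrep' q hq) (Finset.mem_of_mem_erase hjq)).trans h)
    exact this ▸ hjq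
  have hU2 : ∀ p ∈ P, p ∉ U := fun p hp h => Finset.notMem_erase p _ (hU1 p h p hp rfl)
  have hU3 : ∀ S, Mn m0 m1 T x S → ¬ S ⊆ U := by
    intro S hS hSU
    obtain ⟨i, hi⟩ := hne S hS
    obtain ⟨p, hp, hpi⟩ := hP S hS i hi
    have h1 : S ⊆ (rep p).erase p := fun j hj =>
      hU1 j (hSU hj) p hp ((hS.same hj hi).trans hpi.symm)
    exact Finset.notMem_erase p _
      (h1 ((hrep p hp).2 hS.1 (h1.trans (Finset.erase_subset _ _)) (hrep' p hp)))
  have hK : ∀ z : ι → ℝ, (∀ i ∉ U, z i = x i) → T (F m0 m1 z) = 0 := fun z hz =>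
    killed_of_no_min hU3 hz
  choose g0 hg0 using fun p => factor_out m0 m1 T x (p := p) hK
  have hw : ∀ i, ∃ w ∈ Icc (a i) (b i), w ∉ Finset.univ.image x := fun i =>
    (Set.Icc_infinite (hab i)).exists_notMem_finset _
  choose w hw hw' using hw
  have hw'' : ∀ i j, w i - x j ≠ 0 := fun i j h =>
    hw' i (Finset.mem_image.2 ⟨j, mem_univ _, (sub_eq_zero.1 h).symm⟩)
  let t1 : ι → ℝ := U.piecewise w x
  have ht1 : t1 ∈ Icc a b :=
    U.piecewise_mem_Icc_of_mem_of_mem ⟨fun i => (hw i).1, fun i => (hw i).2⟩ hx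
  have ht1P : ∀ p ∈ P, t1 p = x p := fun p hp => Finset.piecewise_eq_of_notMem _ _ _ (hU2 p hp)
  have hν : ∀ p ∈ P, ∃ ν : ℝ, T (cS m0 m1 x (rep p)) = ν • g0 p := by
    intro p hp
    have e1 := (hrep p hp).image (t := (rep p).piecewise (fun i => x i + 1) x)
      fun i hi => Finset.piecewise_eq_of_notMem _ _ _ hi
    rw [Finset.prod_eq_one (fun i hi => by rw [Finset.piecewise_eq_of_mem _ _ _ hi]; ring),
      one_smul] at e1
    refine ⟨_, e1.symm.trans (hg0 p _ fun i hi => Finset.piecewise_eq_of_notMem _ _ _ fun h => hi ?_)⟩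
    by_cases hip : i = p
    · simp [hip]
    · exact Finset.mem_insert_of_mem (Finset.mem_biUnion.2 ⟨p, hp, Finset.mem_erase.2 ⟨hip, h⟩⟩)
  choose! ν hν using hν
  let θ : ι → ℝ := fun p => ∏ j ∈ U, (w j - x p)
  have hθ : ∀ p, θ p ≠ 0 := fun p => Finset.prod_ne_zero_iff.2 fun j _ => hw'' j p
  have hup : ∀ p ∈ P, ∀ v, T (F m0 m1 (Function.update t1 p v)) = ((v - x p) * θ p) • g0 p := by
    intro p hp v
    rw [hg0 p _ fun i hi => ?_, Finset.prod_insert (hU2 p hp), Function.update_self]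
    · congr 2
      refine Finset.prod_congr rfl fun j hj => ?_
      rw [Function.update_of_ne (ne_of_mem_of_not_mem hj (hU2 p hp))]
      exact congrArg (· - x p) (Finset.piecewise_eq_of_mem _ _ _ hj)
    · rw [Finset.mem_insert, not_or] at hi
      rw [Function.update_of_ne hi.1]
      exact Finset.piecewise_eq_of_notMem _ _ _ hi.2
  by_cases hι : P = ∅
  · refine ⟨x, hx, 1, one_pos, ?_⟩
    rw [h0, Finset.sum_eq_zero, smul_zero]
    intro S hS
    obtain ⟨p, hp, _⟩ := hg S (Finset.mem_filter.1 hS).2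
    simp [hι] at hp
  have : Nonempty ι := ⟨(Finset.nonempty_iff_ne_empty.2 hι).choose⟩
  choose! g hg hg' using hg
  let Y : ι → ℝ := fun p => ∑ S ∈ (univ.filter (Mn m0 m1 T x)).filter (fun S => g S = p), y S
  have hY : ∀ p, 0 ≤ Y p * l (T (cS m0 m1 x (rep p))) := by
    intro p
    rw [Finset.sum_mul]
    refine Finset.sum_nonneg fun S hS => ?_
    simp only [Finset.mem_filter, Finset.mem_univ, true_and] at hS
    rw [← hS.2, ← hg' S hS.1]
    exact hy S hS.1
  have hsum : ∑ S ∈ univ.filter (Mn m0 m1 T x), y S • T (cS m0 m1 x S)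
      = ∑ p ∈ P, Y p • T (cS m0 m1 x (rep p)) := by
    rw [← Finset.sum_fiberwise_of_maps_to (t := P) (g := g)
      fun S hS => hg S (Finset.mem_filter.1 hS).2]
    refine Finset.sum_congr rfl fun p _ => ?_
    rw [Finset.sum_smul]
    refine Finset.sum_congr rfl fun S hS => ?_
    simp only [Finset.mem_filter, Finset.mem_univ, true_and] at hS
    rw [← hS.2, ← hg' S hS.1]
  obtain ⟨ρ, hρ, r, hr, hprod⟩ := multi_root m0 m1 P x (fun p => Y p * ν p / θ p)
    (fun p => w p - x p) hinj (fun p _ => hw'' p p) (by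
      intro p hp
      have e1 := hpos _ (update_mem_Icc ht1 p (hw p))
      rw [hup p hp, map_smul, smul_eq_mul] at e1
      have e2 := hY p
      have e3 := (hrep p hp).ne_zero hab hN hx
      rw [hν p hp, map_smul, smul_eq_mul] at e2 e3
      have e4 : l (g0 p) ≠ 0 := right_ne_zero_of_mul e3
      have e5 := mul_nonneg e1 e2
      have e6 : Y p * ν p / θ p * (w p - x p)
          = (w p - x p) * θ p * l (g0 p) * (Y p * (ν p * l (g0 p))) / (θ p * l (g0 p)) ^ 2 := by
        have := hθ p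
        field_simp
      rw [e6]
      positivity)
  refine ⟨P.piecewise r t1, ⟨fun i => ?_, fun i => ?_⟩, ρ, hρ, ?_⟩
  · by_cases hi : i ∈ P
    · rw [Finset.piecewise_eq_of_mem _ _ _ hi]
      exact (uIcc_subset_Icc ⟨hx.1 i, hx.2 i⟩ (by simpa using hw i) (hr i hi)).1
    · rw [Finset.piecewise_eq_of_notMem _ _ _ hi]; exact ht1.1 i
  · by_cases hi : i ∈ P
    · rw [Finset.piecewise_eq_of_mem _ _ _ hi]
      exact (uIcc_subset_Icc ⟨hx.1 i, hx.2 i⟩ (by simpa using hw i) (hr i hi)).2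
    · rw [Finset.piecewise_eq_of_notMem _ _ _ hi]; exact ht1.2 i
  · set H : A := ∏ i ∈ univ \ P, (m0 + t1 i • m1) with hH
    have f1 : F m0 m1 (P.piecewise r t1) = H * ∏ p ∈ P, (m0 + r p • m1) := by
      rw [F, ← Finset.prod_sdiff (Finset.subset_univ P)]
      congr 1
      · exact Finset.prod_congr rfl fun i hi => by
          rw [Finset.piecewise_eq_of_notMem _ _ _ (Finset.mem_sdiff.1 hi).2]
      · exact Finset.prod_congr rfl fun i hi => by rw [Finset.piecewise_eq_of_mem _ _ _ hi]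
    have f2 : F m0 m1 t1 = H * ∏ p ∈ P, (m0 + x p • m1) := by
      rw [F, ← Finset.prod_sdiff (Finset.subset_univ P)]
      congr 1
      exact Finset.prod_congr rfl fun i hi => by rw [ht1P i hi]
    have f3 : ∀ p ∈ P, T (H * (m1 * ∏ q ∈ P.erase p, (m0 + x q • m1))) = θ p • g0 p := by
      intro p hp
      have e1 : H1 m0 m1 t1 p = H * ∏ q ∈ P.erase p, (m0 + x q • m1) := by
        rw [H1, ← Finset.prod_sdiff (Finset.erase_subset_erase p (Finset.subset_univ P))]
        congr 1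
        · refine Finset.prod_congr ?_ fun _ _ => rfl
          ext i
          by_cases hip : i = p <;> simp [hip, hp]
        · exact Finset.prod_congr rfl fun i hi => by rw [ht1P i (Finset.mem_of_mem_erase hi)]
      have e2 := hup p hp (x p + 1)
      have e3 := hup p hp (x p)
      rw [F_update, map_add, map_smul] at e2 e3
      have e4 : H * (m1 * ∏ q ∈ P.erase p, (m0 + x q • m1)) = H1 m0 m1 t1 p * m1 := by
        rw [e1]; ring
      rw [e4]
      have e5 : T (H1 m0 m1 t1 p * m1) = (T (H1 m0 m1 t1 p * m0)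
          + (x p + 1) • T (H1 m0 m1 t1 p * m1)) - (T (H1 m0 m1 t1 p * m0)
          + x p • T (H1 m0 m1 t1 p * m1)) := by module
      rw [e5, e2, e3]
      simp
    rw [f1, hprod, mul_add, map_add, ← f2,
      hK t1 fun i hi => Finset.piecewise_eq_of_notMem _ _ _ hi, zero_add, mul_smul_comm, map_smul,
      Finset.mul_sum, map_sum, hsum]
    congr 1
    refine Finset.sum_congr rfl fun p hp => ?_
    rw [mul_smul_comm, map_smul, f3 p hp, hν p hp, smul_smul, smul_smul]
    congr 1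
    have := hθ p
    field_simp

end Pool.Agent.MP_3d209c_an.H71
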