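import Mathlib

/-!
Products of a pencil of two elements over a box of parameters: expansion, continuity,
the two-root perturbation and the variational lemma.
-/

open Finset Set Filter Topology

namespace Pool.Agent.MP_3d209c_an.H71

variable {A : Type*} [CommRing A] [Algebra ℝ A] {ι : Type*} [Fintype ι] [DecidableEq ι]

/-- The product of the members `m0 + t i • m1` of the pencil. -/
noncomputable def F (m0 m1 : A) (t : ι → ℝ) : A := ∏ i, (m0 + t i • m1)

/-- All coordinates strictly inside their interval agree. -/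
def IsTest (a b t : ι → ℝ) : Prop :=
  ∀ i j, a i < t i → t i < b i → a j < t j → t j < b j → t i = t j

omit [DecidableEq ι] in
theorem F_expand (m0 m1 : A) :
    ∃ c : Finset ι → A, ∀ t : ι → ℝ, F m0 m1 t = ∑ S : Finset ι, (∏ i ∈ S, t i) • c S := by
  classical
  refine ⟨fun S => (∏ _i ∈ S, m1) * ∏ _i ∈ univ \ S, m0, fun t => ?_⟩
  have : F m0 m1 t = ∏ i, (t i • m1 + m0) := by
    unfold F; exact Finset.prod_congr rfl fun i _ => add_comm _ _
  rw [this, Finset.prod_add, Finset.powerset_univ]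
  refine Finset.sum_congr rfl fun S _ => ?_
  rw [Finset.prod_smul, smul_mul_assoc]

omit [DecidableEq ι] in
theorem continuous_F {E : Type*} [AddCommGroup E] [Module ℝ E] [TopologicalSpace E]
    [ContinuousAdd E] [ContinuousSMul ℝ E] (m0 m1 : A) (φ : A →ₗ[ℝ] E) :
    Continuous fun t : ι → ℝ => φ (F m0 m1 t) := by
  obtain ⟨c, hc⟩ := F_expand (ι := ι) m0 m1
  simp only [hc, map_sum, map_smul]
  fun_prop

omit [DecidableEq ι] in
theorem analytic_F (m0 m1 : A) (φ : A →ₗ[ℝ] ℝ) (x : ι → ℝ) :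
    AnalyticAt ℝ (fun t : ι → ℝ => φ (F m0 m1 t)) x := by
  obtain ⟨c, hc⟩ := F_expand (ι := ι) m0 m1
  simp only [hc, map_sum, map_smul, smul_eq_mul]
  refine Finset.analyticAt_fun_sum _ fun S _ => AnalyticAt.mul ?_ analyticAt_const
  refine Finset.analyticAt_fun_prod _ fun i _ => ?_
  exact (ContinuousLinearMap.proj (R := ℝ) (φ := fun _ : ι => ℝ) i).analyticAt x

omit [DecidableEq ι] in
theorem continuous_eval_F (m0 m1 : A) (T : A →ₗ[ℝ] Polynomial ℂ) :
    Continuous fun p : ℂ × (ι → ℝ) => (T (F m0 m1 p.2)).eval p.1 := by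
  obtain ⟨c, hc⟩ := F_expand (ι := ι) m0 m1
  simp only [hc, map_sum, map_smul, Polynomial.eval_finsetSum, Polynomial.eval_smul]
  fun_prop

/-- The cofactor of one coordinate. -/
noncomputable def H1 (m0 m1 : A) (t : ι → ℝ) (i : ι) : A := ∏ k ∈ univ.erase i, (m0 + t k • m1)

/-- The cofactor of two coordinates. -/
noncomputable def H2 (m0 m1 : A) (t : ι → ℝ) (i j : ι) : A :=
  ∏ k ∈ (univ.erase i).erase j, (m0 + t k • m1)

theorem F_update (m0 m1 : A) (t : ι → ℝ) (i : ι) (x : ℝ) :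
    F m0 m1 (Function.update t i x) = H1 m0 m1 t i * m0 + x • (H1 m0 m1 t i * m1) := by
  unfold F H1
  rw [← Finset.mul_prod_erase univ _ (mem_univ i), Function.update_self]
  have : ∏ k ∈ univ.erase i, (m0 + Function.update t i x k • m1)
      = ∏ k ∈ univ.erase i, (m0 + t k • m1) :=
    Finset.prod_congr rfl fun k hk => by rw [Function.update_of_ne (Finset.ne_of_mem_erase hk)]
  rw [this, add_mul, smul_mul_assoc, mul_comm m0, mul_comm m1]

theorem prod_update2 {M : Type*} [CommMonoid M] (g : ℝ → M) (t : ι → ℝ) {i j : ι} (hij : i ≠ j)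
    (x y : ℝ) :
    ∏ k, g (Function.update (Function.update t i x) j y k)
      = g x * g y * ∏ k ∈ (univ.erase i).erase j, g (t k) := by
  rw [← Finset.mul_prod_erase univ _ (mem_univ i),
    ← Finset.mul_prod_erase (univ.erase i) _ (Finset.mem_erase.2 ⟨hij.symm, mem_univ j⟩),
    Function.update_self, Function.update_of_ne hij, Function.update_self, mul_assoc]
  congr 2
  refine Finset.prod_congr rfl fun k hk => ?_
  rw [Function.update_of_ne (Finset.ne_of_mem_erase hk),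
    Function.update_of_ne (Finset.ne_of_mem_erase (Finset.mem_of_mem_erase hk))]

theorem sum_update2 (g : ℝ → ℝ) (t : ι → ℝ) {i j : ι} (hij : i ≠ j) (x y : ℝ) :
    ∑ k, g (Function.update (Function.update t i x) j y k)
      = g x + g y + ∑ k ∈ (univ.erase i).erase j, g (t k) :=
  prod_update2 (M := Multiplicative ℝ) (fun r => Multiplicative.ofAdd (g r)) t hij x y

omit [Fintype ι] in
theorem update2_self (t : ι → ℝ) (i j : ι) :
    Function.update (Function.update t i (t i)) j (t j) = t := by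
  simp

theorem F_update2 (m0 m1 : A) (t : ι → ℝ) {i j : ι} (hij : i ≠ j) (x y : ℝ) :
    F m0 m1 (Function.update (Function.update t i x) j y)
      = H2 m0 m1 t i j * m0 ^ 2 + (x + y) • (H2 m0 m1 t i j * (m0 * m1))
        + (x * y) • (H2 m0 m1 t i j * m1 ^ 2) := by
  unfold F H2
  rw [prod_update2 (fun r => m0 + r • m1) t hij x y]
  simp only [Algebra.smul_def, map_add, map_mul]
  ring

theorem roots_perturb_aux {u v a1 b1 a2 b2 : ℝ} (huv : v < u) (h1 : a1 < u) (h2 : u < b1)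
    (h3 : a2 < v) (h4 : v < b2) :
    ∀ᶠ p : ℝ × ℝ in 𝓝 0, ∃ u' v' : ℝ, u' ∈ Icc a1 b1 ∧ v' ∈ Icc a2 b2 ∧
      u' + v' = u + v + p.1 ∧ u' * v' = u * v + p.2 := by
  let D : ℝ × ℝ → ℝ := fun p => (u + v + p.1) ^ 2 - 4 * (u * v + p.2)
  have hD : Continuous D := by fun_prop
  have hD0 : D 0 = (u - v) ^ 2 := by simp only [D, Prod.fst_zero, Prod.snd_zero]; ring
  have hs0 : Real.sqrt (D 0) = u - v := by rw [hD0, Real.sqrt_sq (by linarith)]
  let U : ℝ × ℝ → ℝ := fun p => (u + v + p.1 + Real.sqrt (D p)) / 2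
  let W : ℝ × ℝ → ℝ := fun p => (u + v + p.1 - Real.sqrt (D p)) / 2
  have hU : Continuous U := by fun_prop
  have hW : Continuous W := by fun_prop
  have hU0 : U 0 = u := by simp only [U, hs0, Prod.fst_zero]; ring
  have hW0 : W 0 = v := by simp only [W, hs0, Prod.fst_zero]; ring
  have e1 : ∀ᶠ p in 𝓝 (0 : ℝ × ℝ), 0 < D p :=
    hD.continuousAt.eventually (lt_mem_nhds (by rw [hD0]; have := sub_pos.2 huv; positivity))
  have e2 : ∀ᶠ p in 𝓝 (0 : ℝ × ℝ), U p ∈ Icc a1 b1 :=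
    hU.continuousAt.eventually (by rw [hU0]; exact Icc_mem_nhds h1 h2)
  have e3 : ∀ᶠ p in 𝓝 (0 : ℝ × ℝ), W p ∈ Icc a2 b2 :=
    hW.continuousAt.eventually (by rw [hW0]; exact Icc_mem_nhds h3 h4)
  filter_upwards [e1, e2, e3] with p hp1 hp2 hp3
  refine ⟨U p, W p, hp2, hp3, by simp only [U, W]; ring, ?_⟩
  have hsq : Real.sqrt (D p) ^ 2 = D p := Real.sq_sqrt hp1.le
  simp only [U, W]
  have : D p = (u + v + p.1) ^ 2 - 4 * (u * v + p.2) := rfl
  nlinarith

theorem roots_perturb {u v a1 b1 a2 b2 : ℝ} (huv : u ≠ v) (h1 : a1 < u) (h2 : u < b1)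
    (h3 : a2 < v) (h4 : v < b2) :
    ∀ᶠ p : ℝ × ℝ in 𝓝 0, ∃ u' v' : ℝ, u' ∈ Icc a1 b1 ∧ v' ∈ Icc a2 b2 ∧
      u' + v' = u + v + p.1 ∧ u' * v' = u * v + p.2 := by
  rcases lt_or_gt_of_ne huv with h | h
  · filter_upwards [roots_perturb_aux h h3 h4 h1 h2] with p ⟨v', u', hv, hu, e1, e2⟩
    exact ⟨u', v', hu, hv, by linarith, by linarith⟩
  · exact roots_perturb_aux h h1 h2 h3 h4

/-- The strictly convex potential. -/
def Q (t : ι → ℝ) : ℝ := (∑ k, t k) ^ 2 + (∑ k, t k ^ 2) ^ 2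

omit [DecidableEq ι] in
theorem continuous_Q : Continuous (Q : (ι → ℝ) → ℝ) := by
  unfold Q; fun_prop

omit [DecidableEq ι] in
theorem Q_nonneg (t : ι → ℝ) : 0 ≤ Q t := by unfold Q; positivity

theorem perturb (m0 m1 : A) {a b t : ι → ℝ} (ht : t ∈ Icc a b) {i j : ι} (hij : t i ≠ t j)
    (h1 : a i < t i) (h2 : t i < b i) (h3 : a j < t j) (h4 : t j < b j) :
    ∀ᶠ p : ℝ × ℝ in 𝓝 0, ∃ t' ∈ Icc a b,
      F m0 m1 t' = F m0 m1 t + p.1 • (H2 m0 m1 t i j * (m0 * m1))
        + p.2 • (H2 m0 m1 t i j * m1 ^ 2) ∧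
      ∑ k, t' k = ∑ k, t k + p.1 ∧
      ∑ k, t' k ^ 2 = ∑ k, t k ^ 2 + ((t i + t j + p.1) ^ 2 - (t i + t j) ^ 2 - 2 * p.2) := by
  have hne : i ≠ j := fun h => hij (by rw [h])
  filter_upwards [roots_perturb hij h1 h2 h3 h4] with p ⟨u', v', hu, hv, e1, e2⟩
  refine ⟨Function.update (Function.update t i u') j v', ?_, ?_, ?_, ?_⟩
  · constructor
    · intro k
      by_cases hk : k = j
      · subst hk; simpa using hv.1
      · rw [Function.update_of_ne hk]
        by_cases hk' : k = i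
        · subst hk'; simpa using hu.1
        · rw [Function.update_of_ne hk']; exact ht.1 k
    · intro k
      by_cases hk : k = j
      · subst hk; simpa using hv.2
      · rw [Function.update_of_ne hk]
        by_cases hk' : k = i
        · subst hk'; simpa using hu.2
        · rw [Function.update_of_ne hk']; exact ht.2 k
  · conv_rhs => rw [← update2_self t i j]
    rw [F_update2 m0 m1 t hne, F_update2 m0 m1 t hne, update2_self, e1, e2]
    simp only [add_smul]
    abel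
  · have e3 := sum_update2 (fun r => r) t hne u' v'
    have e4 := sum_update2 (fun r => r) t hne (t i) (t j)
    rw [update2_self] at e4
    rw [e3, e4]; linarith
  · have e3 := sum_update2 (fun r => r ^ 2) t hne u' v'
    have e4 := sum_update2 (fun r => r ^ 2) t hne (t i) (t j)
    rw [update2_self] at e4
    rw [e3, e4]
    have : u' ^ 2 + v' ^ 2 = (u' + v') ^ 2 - 2 * (u' * v') := by ring
    rw [this, e1, e2]; ring

/-- At a maximiser of the potential on a slice, no direction of the two-root perturbation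
stays in the slice. -/
theorem var_lemma {E : Type*} [AddCommGroup E] [Module ℝ E] (m0 m1 : A) (φ : A →ₗ[ℝ] E)
    (μ : A →ₗ[ℝ] ℝ) {δ : ℝ} (hδ : 0 < δ) {a b t : ι → ℝ} (ht : t ∈ Icc a b)
    (hφ : φ (F m0 m1 t) = 0)
    (hmax : ∀ t' ∈ Icc a b, φ (F m0 m1 t') = 0 →
      μ (F m0 m1 t') + δ * Q t' ≤ μ (F m0 m1 t) + δ * Q t)
    {i j : ι} (hij : t i ≠ t j)
    (h1 : a i < t i) (h2 : t i < b i) (h3 : a j < t j) (h4 : t j < b j) {α β : ℝ}
    (hk : α • φ (H2 m0 m1 t i j * (m0 * m1)) + β • φ (H2 m0 m1 t i j * m1 ^ 2) = 0) :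
    α = 0 ∧ β = 0 := by
  have hp := perturb m0 m1 ht hij h1 h2 h3 h4
  have c1 : Tendsto (fun ε : ℝ => ((ε * α, ε * β) : ℝ × ℝ)) (𝓝[>] 0) (𝓝 0) := by
    have : Continuous (fun ε : ℝ => ((ε * α, ε * β) : ℝ × ℝ)) := by fun_prop
    have h := this.tendsto 0
    simp only [zero_mul] at h
    exact h.mono_left nhdsWithin_le_nhds
  have c2 : Tendsto (fun ε : ℝ => ((-(ε * α), -(ε * β)) : ℝ × ℝ)) (𝓝[>] 0) (𝓝 0) := by
    have : Continuous (fun ε : ℝ => ((-(ε * α), -(ε * β)) : ℝ × ℝ)) := by fun_prop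
    have h := this.tendsto 0
    simp only [zero_mul, neg_zero] at h
    exact h.mono_left nhdsWithin_le_nhds
  obtain ⟨ε, ⟨t1, ht1, f1, s1, q1⟩, ⟨t2, ht2, f2, s2, q2⟩, hε⟩ :=
    ((c1.eventually hp).and ((c2.eventually hp).and self_mem_nhdsWithin)).exists
  simp only at f1 s1 q1 f2 s2 q2
  have hε' : 0 < ε := hε
  have z1 : φ (F m0 m1 t1) = 0 := by
    rw [f1, map_add, map_add, hφ, map_smul, map_smul, zero_add, mul_smul, mul_smul, ← smul_add,
      hk, smul_zero]
  have z2 : φ (F m0 m1 t2) = 0 := by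
    rw [f2, map_add, map_add, hφ, map_smul, map_smul, zero_add, neg_smul, neg_smul, ← neg_add,
      mul_smul, mul_smul, ← smul_add, hk, smul_zero, neg_zero]
  have m1' := hmax t1 ht1 z1
  have m2' := hmax t2 ht2 z2
  rw [f1] at m1'
  rw [f2] at m2'
  simp only [map_add, map_smul, smul_eq_mul] at m1' m2'
  have hQ : Q t1 + Q t2 ≤ 2 * Q t := by
    have : δ * (Q t1 + Q t2) ≤ δ * (2 * Q t) := by linarith
    exact le_of_mul_le_mul_left this hδ
  unfold Q at hQ
  rw [s1, q1, s2, q2] at hQ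
  have hS2 : 0 ≤ ∑ k, t k ^ 2 := by positivity
  set S1 := ∑ k, t k
  set S2 := ∑ k, t k ^ 2
  set e := t i + t j
  set x := ε * α with hx
  set y := ε * β with hy
  have key : 2 * x ^ 2 + 2 * (2 * e * x - 2 * y) ^ 2 + 2 * x ^ 4 + 4 * S2 * x ^ 2 ≤ 0 := by
    nlinarith
  have hx0 : x = 0 := by
    have : x ^ 2 ≤ 0 := by
      nlinarith [sq_nonneg (2 * e * x - 2 * y), sq_nonneg (x ^ 2), mul_nonneg hS2 (sq_nonneg x)]
    exact pow_eq_zero_iff (two_ne_zero) |>.1 (le_antisymm this (sq_nonneg x))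
  have hy0 : y = 0 := by
    rw [hx0] at key
    have : y ^ 2 ≤ 0 := by nlinarith
    exact pow_eq_zero_iff (two_ne_zero) |>.1 (le_antisymm this (sq_nonneg y))
  exact ⟨(mul_eq_zero.1 (hx ▸ hx0)).resolve_left hε'.ne',
    (mul_eq_zero.1 (hy ▸ hy0)).resolve_left hε'.ne'⟩

end Pool.Agent.MP_3d209c_an.H71
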