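import Mathlib

/-! Hyperbolic polynomials with respect to a cone, linear forms and the test class. -/

namespace Pool.Agent.MP_3d209c_an.H71

open MvPolynomial

/-- `f` is hyperbolic in direction `e`: `f e ≠ 0` and every complex zero of
`z ↦ f (α + z e)` is real, for every real `α`. -/
def Hyp {n : ℕ} (e : Fin n → ℝ) (f : MvPolynomial (Fin n) ℝ) : Prop :=
  eval e f ≠ 0 ∧ ∀ (α : Fin n → ℝ) (z : ℂ),
    aeval (fun i => (α i : ℂ) + z * (e i : ℂ)) f = 0 → z.im = 0

/-- Homogeneous polynomials hyperbolic with respect to every vector of `V`. -/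
def HV {n : ℕ} (V : Set (Fin n → ℝ)) : Set (MvPolynomial (Fin n) ℝ) :=
  {f | (∃ d : ℕ, f.IsHomogeneous d) ∧ ∀ e ∈ V, Hyp e f}

/-- A nonempty set closed under positive scaling. -/
def IsCone {n : ℕ} (V : Set (Fin n → ℝ)) : Prop :=
  V.Nonempty ∧ ∀ v ∈ V, ∀ r : ℝ, 0 < r → r • v ∈ V

/-- The linear form with coefficient vector `w`. -/
noncomputable def lin {n : ℕ} (w : Fin n → ℝ) : MvPolynomial (Fin n) ℝ := ∑ i, C (w i) * X i

end Pool.Agent.MP_3d209c_an.H71
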