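import Pool.Agent.MP_3d209c_an.H71.Real

/-!
The set of bad points is open; the connectedness argument; the theorem with moving end points.
-/

open Finset Set Filter Topology Polynomial

namespace Pool.Agent.MP_3d209c_an.H71

variable {A : Type*} [CommRing A] [Algebra ℝ A] {ι : Type*} [Fintype ι] [DecidableEq ι]

/-- The non-real numbers together with the origin. -/
def Om : Set ℂ := {s | s.im ≠ 0 ∨ s = 0}

/-- Zero, or without zeros in `Om`. -/
def Good (p : ℂ[X]) : Prop := p = 0 ∨ ∀ s ∈ Om, p.eval s ≠ 0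

/-- Evaluation after `T`. -/
noncomputable def evs (T : A →ₗ[ℝ] ℂ[X]) (s : ℂ) : A →ₗ[ℝ] ℂ :=
  (Polynomial.leval s).restrictScalars ℝ ∘ₗ T

/-- Real part of the value at the origin after `T`. -/
noncomputable def lam (T : A →ₗ[ℝ] ℂ[X]) : A →ₗ[ℝ] ℝ := Complex.reLm ∘ₗ evs T 0

theorem evs_apply (T : A →ₗ[ℝ] ℂ[X]) (s : ℂ) (x : A) : evs T s x = (T x).eval s := rfl

theorem lam_apply (T : A →ₗ[ℝ] ℂ[X]) (x : A) : lam T x = ((T x).eval 0).re := rfl

/-- Points at which some non-degenerate image vanishes. -/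
def Bad (m0 m1 : A) (T : A →ₗ[ℝ] ℂ[X]) (a b : ι → ℝ) : Set ℂ :=
  {s | ∃ t ∈ Icc a b, (T (F m0 m1 t)).eval s = 0 ∧ lam T (F m0 m1 t) ≠ 0}

theorem isPreconnected_Om : IsPreconnected Om := by
  have h : StarConvex ℝ (0 : ℂ) Om := by
    intro y hy p q hp hq hpq
    rcases hy with hy | hy
    · rcases hq.eq_or_lt with h | h
      · right; simp [← h]
      · left; simpa using ⟨h.ne', hy⟩
    · right; simp [hy]
  exact (h.isPathConnected (Or.inr rfl)).isConnected.isPreconnected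

theorem Good.smul {p : ℂ[X]} (hp : Good p) (c : ℝ) : Good (c • p) := by
  rcases eq_or_ne c 0 with h | h
  · left; simp [h]
  rcases hp with hp | hp
  · left; simp [hp]
  · right
    intro s hs
    rw [eval_smul]
    exact smul_ne_zero h (hp s hs)

theorem bad_open_aux (m0 m1 : A) (T : A →ₗ[ℝ] ℂ[X]) {a b : ι → ℝ}
    (htest : ∀ t ∈ Icc a b, IsTest a b t → Good (T (F m0 m1 t))) (μ : A →ₗ[ℝ] ℝ)
    (hμ : ∀ x, 0 < μ x → lam T x ≠ 0) {s0 : ℂ} (hs0 : s0 ∈ Om) {t0 : ι → ℝ}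
    (ht0 : t0 ∈ Icc a b) (hz : (T (F m0 m1 t0)).eval s0 = 0) (hpos : 0 < μ (F m0 m1 t0)) :
    Bad m0 m1 T a b ∈ 𝓝 s0 := by
  obtain ⟨t, ht, hz, hpos, hr⟩ := exists_rigid m0 m1 (evs T s0) μ ht0 hz hpos
  have hnt : ¬ IsTest a b t := by
    intro h
    rcases htest t ht h with h | h
    · apply hμ _ hpos
      rw [lam_apply, h]; simp
    · exact h s0 hs0 hz
  unfold IsTest at hnt
  push Not at hnt
  obtain ⟨i, j, h1, h2, h3, h4, hij⟩ := hnt
  have hr' := hr i j hij h1 h2 h3 h4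
  set x1 := H2 m0 m1 t i j * (m0 * m1)
  set x2 := H2 m0 m1 t i j * m1 ^ 2
  let A1 : ℂ → ℂ := fun s => (T x1).eval s
  let A2 : ℂ → ℂ := fun s => (T x2).eval s
  let G : ℂ → ℂ := fun s => (T (F m0 m1 t)).eval s
  have cA1 : Continuous A1 := (T x1).continuous
  have cA2 : Continuous A2 := (T x2).continuous
  have cG : Continuous G := (T (F m0 m1 t)).continuous
  have hG0 : G s0 = 0 := hz
  let det : ℂ → ℝ := fun s => (A1 s).re * (A2 s).im - (A1 s).im * (A2 s).re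
  have cdet : Continuous det := by fun_prop
  have hdet : det s0 ≠ 0 := by
    intro hd
    simp only [det] at hd
    have e1 := hr' (A2 s0).re (-(A1 s0).re) (by
      change (A2 s0).re • A1 s0 + (-(A1 s0).re) • A2 s0 = 0
      apply Complex.ext <;> simp <;> linarith)
    have e2 := hr' (A2 s0).im (-(A1 s0).im) (by
      change (A2 s0).im • A1 s0 + (-(A1 s0).im) • A2 s0 = 0
      apply Complex.ext <;> simp <;> linarith)
    have e3 := hr' 1 0 (by
      change (1 : ℝ) • A1 s0 + (0 : ℝ) • A2 s0 = 0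
      apply Complex.ext
      · simpa using e1.2
      · simpa using e2.2)
    exact one_ne_zero e3.1
  let p : ℂ → ℝ × ℝ := fun s =>
    ((-(G s).re * (A2 s).im + (G s).im * (A2 s).re) / det s,
      (-(A1 s).re * (G s).im + (A1 s).im * (G s).re) / det s)
  have cp : ContinuousAt p s0 := by
    refine ContinuousAt.prodMk (ContinuousAt.div ?_ cdet.continuousAt hdet)
      (ContinuousAt.div ?_ cdet.continuousAt hdet) <;> fun_prop
  have hp0 : p s0 = 0 := by simp [p, hG0]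
  have hten : Tendsto p (𝓝 s0) (𝓝 0) := hp0 ▸ cp.tendsto
  have e1 := hten.eventually (perturb m0 m1 ht hij h1 h2 h3 h4)
  have e2 : ∀ᶠ q : ℝ × ℝ in 𝓝 0, 0 < μ (F m0 m1 t) + q.1 * μ x1 + q.2 * μ x2 := by
    have : Continuous fun q : ℝ × ℝ => μ (F m0 m1 t) + q.1 * μ x1 + q.2 * μ x2 := by fun_prop
    exact this.continuousAt.eventually (lt_mem_nhds (by simpa using hpos))
  have e3 : ∀ᶠ s in 𝓝 s0, det s ≠ 0 := cdet.continuousAt.eventually_ne hdet
  filter_upwards [e1, hten.eventually e2, e3] with s ⟨t', ht', hF, _⟩ hq hd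
  refine ⟨t', ht', ?_, hμ _ ?_⟩
  · rw [hF]
    simp only [map_add, map_smul, eval_add, eval_smul]
    change G s + (p s).1 • A1 s + (p s).2 • A2 s = 0
    have hd' : det s = (A1 s).re * (A2 s).im - (A1 s).im * (A2 s).re := rfl
    apply Complex.ext
    · simp only [p, Complex.add_re, Complex.smul_re, smul_eq_mul, Complex.zero_re]
      field_simp
      rw [hd']; ring
    · simp only [p, Complex.add_im, Complex.smul_im, smul_eq_mul, Complex.zero_im]
      field_simp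
      rw [hd']; ring
  · rw [hF]
    simpa only [map_add, map_smul, smul_eq_mul] using hq

theorem bad_open (m0 m1 : A) (T : A →ₗ[ℝ] ℂ[X]) {a b : ι → ℝ}
    (htest : ∀ t ∈ Icc a b, IsTest a b t → Good (T (F m0 m1 t))) {s0 : ℂ} (hs0 : s0 ∈ Om)
    (hb : s0 ∈ Bad m0 m1 T a b) : Bad m0 m1 T a b ∈ 𝓝 s0 := by
  obtain ⟨t0, ht0, hz, hl⟩ := hb
  rcases lt_or_gt_of_ne hl with h | h
  · exact bad_open_aux m0 m1 T htest (-lam T) (fun x hx h => by simp [h] at hx) hs0 ht0 hz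
      (by simpa using h)
  · exact bad_open_aux m0 m1 T htest (lam T) (fun x hx => hx.ne') hs0 ht0 hz h

theorem bad_empty (m0 m1 : A) (T : A →ₗ[ℝ] ℂ[X]) {a b : ι → ℝ}
    (htest : ∀ t ∈ Icc a b, IsTest a b t → Good (T (F m0 m1 t))) {C : Set ℂ} (hC : IsClosed C)
    (h1 : Bad m0 m1 T a b ⊆ C) (h2 : ∀ s ∈ Om, s ∈ C → s ∈ Bad m0 m1 T a b) :
    ∀ s ∈ Om, s ∉ Bad m0 m1 T a b := by
  have h0 : (0 : ℂ) ∉ Bad m0 m1 T a b := by
    rintro ⟨t, _, hz, hl⟩
    apply hl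
    rw [lam_apply, hz]; simp
  have key : Om ⊆ Cᶜ := by
    refine isPreconnected_Om.subset_right_of_subset_union (u := interior (Bad m0 m1 T a b))
      isOpen_interior hC.isOpen_compl ?_ ?_ ⟨0, Or.inr rfl, fun h => h0 (h2 0 (Or.inr rfl) h)⟩
    · exact Set.disjoint_left.2 fun s hs hs' => hs' (h1 (interior_subset hs))
    · intro s hs
      by_cases h : s ∈ C
      · exact Or.inl (mem_interior_iff_mem_nhds.2 (bad_open m0 m1 T htest hs (h2 s hs h)))
      · exact Or.inr h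
  exact fun s hs hb => key hs (h1 hb)

theorem isClosed_proj {X Y : Type*} [TopologicalSpace X] [TopologicalSpace Y] {K : Set Y}
    (hK : IsCompact K) {R : Set (X × Y)} (hR : IsClosed R) :
    IsClosed {x | ∃ y ∈ K, (x, y) ∈ R} := by
  have : CompactSpace K := isCompact_iff_compactSpace.1 hK
  have h1 : IsClosed ((fun p : X × K => (p.1, (p.2 : Y))) ⁻¹' R) := hR.preimage (by fun_prop)
  have h2 := isClosedMap_fst_of_compactSpace _ h1
  convert h2 using 1
  ext x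
  constructor
  · rintro ⟨y, hy, h⟩; exact ⟨(x, ⟨y, hy⟩), h, rfl⟩
  · rintro ⟨⟨x', y⟩, h, rfl⟩; exact ⟨y, y.2, h⟩

theorem lam_step (m0 m1 : A) (T : A →ₗ[ℝ] ℂ[X]) (hre : ∀ x, ((T x).eval 0).im = 0) {a b : ι → ℝ}
    (htest : ∀ t ∈ Icc a b, IsTest a b t → Good (T (F m0 m1 t))) :
    ∀ t ∈ Icc a b, lam T (F m0 m1 t) = 0 → T (F m0 m1 t) = 0 := by
  refine real_step m0 m1 (lam T) T fun t ht h1 h2 => ?_
  rcases htest t ht h1 with h | h
  · exact h
  · exact absurd (Complex.ext h2 (hre _)) (h 0 (Or.inr rfl))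

theorem good_of_not_bad (m0 m1 : A) (T : A →ₗ[ℝ] ℂ[X]) (hre : ∀ x, ((T x).eval 0).im = 0)
    {a b : ι → ℝ} (htest : ∀ t ∈ Icc a b, IsTest a b t → Good (T (F m0 m1 t)))
    (h : ∀ s ∈ Om, s ∉ Bad m0 m1 T a b) : ∀ t ∈ Icc a b, Good (T (F m0 m1 t)) := by
  intro t ht
  by_cases hl : lam T (F m0 m1 t) = 0
  · exact Or.inl (lam_step m0 m1 T hre htest t ht hl)
  · exact Or.inr fun s hs hz => h s hs ⟨t, ht, hz, hl⟩

theorem core_nondeg (m0 m1 : A) (T : A →ₗ[ℝ] ℂ[X]) (hre : ∀ x, ((T x).eval 0).im = 0)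
    {a b : ι → ℝ} (htest : ∀ t ∈ Icc a b, IsTest a b t → Good (T (F m0 m1 t)))
    (hnd : ∀ t ∈ Icc a b, lam T (F m0 m1 t) ≠ 0) : ∀ t ∈ Icc a b, Good (T (F m0 m1 t)) := by
  refine good_of_not_bad m0 m1 T hre htest (bad_empty m0 m1 T htest
    (isClosed_proj (isCompact_Icc (a := a) (b := b))
      (R := {p : ℂ × (ι → ℝ) | (T (F m0 m1 p.2)).eval p.1 = 0})
      (isClosed_eq (continuous_eval_F m0 m1 T) continuous_const)) ?_ ?_)
  · rintro s ⟨t, ht, hz, _⟩; exact ⟨t, ht, hz⟩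
  · rintro s _ ⟨t, ht, hz⟩; exact ⟨t, ht, hz, hnd t ht⟩

theorem sign_cases (m0 m1 : A) (T : A →ₗ[ℝ] ℂ[X]) (hre : ∀ x, ((T x).eval 0).im = 0)
    {a b : ι → ℝ} (hab : ∀ i, a i < b i)
    (htest : ∀ t ∈ Icc a b, IsTest a b t → Good (T (F m0 m1 t))) :
    (∀ t ∈ Icc a b, Good (T (F m0 m1 t))) ∨ (∀ t ∈ Icc a b, 0 ≤ lam T (F m0 m1 t)) ∨
      (∀ t ∈ Icc a b, 0 ≤ lam (-T) (F m0 m1 t)) := by
  by_contra hcon
  push Not at hcon
  obtain ⟨⟨t, ht, hbad⟩, ⟨tm, htm, hm⟩, ⟨tp, htp, hp⟩⟩ := hcon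
  have hp' : 0 < lam T (F m0 m1 tp) := by
    rw [lam_apply] at hp ⊢
    simpa using hp
  have hex : ∃ t1 ∈ Icc a b, IsTest a b t1 ∧ lam T (F m0 m1 t1) ≠ 0 := by
    by_contra hn
    push Not at hn
    exact hp'.ne' (real_step m0 m1 0 (lam T) (fun t ht h _ => hn t ht h) tp htp rfl)
  obtain ⟨t1, ht1, h1, h2⟩ := hex
  apply hbad
  have : T (F m0 m1 t) = (lam T (F m0 m1 t) / lam T (F m0 m1 t1)) • T (F m0 m1 t1) := by
    rw [← sub_eq_zero, ← Module.forall_dual_apply_eq_zero_iff ℝ]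
    intro ψ
    have := rank_one m0 m1 (lam T) (ψ ∘ₗ T) hab
      (fun t ht h => by simp [lam_step m0 m1 T hre htest t ht h]) htp htm hp' hm t t1
    simp only [LinearMap.comp_apply] at this
    simp only [map_sub, map_smul, smul_eq_mul]
    field_simp
    linarith
  rw [this]
  exact (htest t1 ht1 h1).smul _

theorem root_bound {s r : ℂ} (hs : s ≠ 0) (hr : r.im = 0) :
    ‖r‖ * (|s.im| / ‖s‖) ≤ ‖s - r‖ := by
  have hs' : 0 < ‖s‖ := norm_pos_iff.2 hs
  rw [← mul_div_assoc, div_le_iff₀ hs']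
  have h1 : ‖r‖ = |r.re| := by
    rw [← Complex.re_add_im r, hr]; simp
  have h2 : |((s - r) * (starRingEnd ℂ) s).im| ≤ ‖(s - r) * (starRingEnd ℂ) s‖ :=
    Complex.abs_im_le_norm _
  rw [norm_mul, Complex.norm_conj] at h2
  have h3 : ((s - r) * (starRingEnd ℂ) s).im = r.re * s.im := by
    simp [hr]; ring
  rw [h3, abs_mul] at h2
  rwa [h1]

theorem hurwitz_bound {s : ℂ} (hs : s ≠ 0) (D : ℕ) : ∀ p : ℂ[X], p.natDegree ≤ D →
    (∀ z, p.eval z = 0 → z.im = 0) → ‖p.eval 0‖ * (|s.im| / ‖s‖) ^ D ≤ ‖p.eval s‖ := by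
  have hs' : 0 < ‖s‖ := norm_pos_iff.2 hs
  have hk0 : 0 ≤ |s.im| / ‖s‖ := by positivity
  have hk1 : |s.im| / ‖s‖ ≤ 1 := (div_le_one hs').2 (Complex.abs_im_le_norm s)
  have hconst : ∀ (D : ℕ) (p : ℂ[X]), p.natDegree = 0 →
      ‖p.eval 0‖ * (|s.im| / ‖s‖) ^ D ≤ ‖p.eval s‖ := by
    intro D p hp
    rw [Polynomial.eq_C_of_natDegree_eq_zero hp, eval_C, eval_C]
    exact mul_le_of_le_one_right (norm_nonneg _) (pow_le_one₀ hk0 hk1)
  induction D with
  | zero => intro p hp _; exact hconst 0 p (Nat.le_zero.1 hp)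
  | succ D ih =>
    intro p hp hz
    by_cases h0 : p.natDegree = 0
    · exact hconst _ p h0
    have hp0 : p ≠ 0 := by rintro rfl; simp at h0
    obtain ⟨r, hr⟩ := Complex.exists_root (f := p) (natDegree_pos_iff_degree_pos.1
      (Nat.pos_of_ne_zero h0))
    obtain ⟨q, hq⟩ := dvd_iff_isRoot.2 hr
    have hq0 : q ≠ 0 := by rintro rfl; simp [hq] at hp0
    have hdeg : q.natDegree ≤ D := by
      rw [hq, natDegree_mul (X_sub_C_ne_zero r) hq0, natDegree_X_sub_C] at hp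
      omega
    have h1 := ih q hdeg fun z hz' => hz z (by rw [hq, eval_mul, hz', mul_zero])
    have h2 := root_bound hs (hz r hr)
    rw [hq]
    simp only [eval_mul, eval_sub, eval_X, eval_C, zero_sub, norm_mul, norm_neg, pow_succ]
    calc ‖r‖ * ‖eval 0 q‖ * ((|s.im| / ‖s‖) ^ D * (|s.im| / ‖s‖))
        = (‖r‖ * (|s.im| / ‖s‖)) * (‖eval 0 q‖ * (|s.im| / ‖s‖) ^ D) := by ring
      _ ≤ ‖s - r‖ * ‖eval s q‖ := mul_le_mul h2 h1 (by positivity) (norm_nonneg _)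

omit [DecidableEq ι] in
theorem exists_degree_bound (m0 m1 : A) (T : A →ₗ[ℝ] ℂ[X]) :
    ∃ D : ℕ, ∀ t : ι → ℝ, (T (F m0 m1 t)).natDegree ≤ D := by
  obtain ⟨c, hc⟩ := F_expand (ι := ι) m0 m1
  refine ⟨univ.sup fun S => (T (c S)).natDegree, fun t => ?_⟩
  rw [hc, map_sum]
  refine natDegree_sum_le_of_forall_le _ _ fun S _ => ?_
  rw [map_smul]
  exact (natDegree_smul_le _ _).trans
    (Finset.le_sup (f := fun S => (T (c S)).natDegree) (mem_univ S))

/-- The point at relative position `η` of the box diagonal. -/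
def shr (a b : ι → ℝ) (η : ℝ) : ι → ℝ := fun i => a i + η * (b i - a i)

omit [Fintype ι] [DecidableEq ι] in
theorem shr_zero (a b : ι → ℝ) : shr a b 0 = a := by ext i; simp [shr]

omit [Fintype ι] [DecidableEq ι] in
theorem shr_one (a b : ι → ℝ) : shr a b (1 - 0) = b := by ext i; simp [shr]

theorem coreA_nonneg (m0 m1 : A) (T : A →ₗ[ℝ] ℂ[X]) (hre : ∀ x, ((T x).eval 0).im = 0)
    {a b : ι → ℝ} (hab : ∀ i, a i < b i)
    (h : ∀ η : ℝ, 0 ≤ η → η < 1 / 2 → ∀ t ∈ Icc (shr a b η) (shr a b (1 - η)),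
      IsTest (shr a b η) (shr a b (1 - η)) t → Good (T (F m0 m1 t)))
    (hpos : ∀ t ∈ Icc a b, 0 ≤ lam T (F m0 m1 t)) : ∀ t ∈ Icc a b, Good (T (F m0 m1 t)) := by
  have htest := h 0 le_rfl (by norm_num)
  rw [shr_zero, shr_one] at htest
  intro t ht
  by_cases hl : lam T (F m0 m1 t) = 0
  · exact Or.inl (lam_step m0 m1 T hre htest t ht hl)
  have hint : ∀ t0 : ι → ℝ, (∀ i, a i < t0 i ∧ t0 i < b i) → lam T (F m0 m1 t0) ≠ 0 :=
    fun t0 h0 hz => hl (zero_of_interior_zero m0 m1 (lam T) hpos h0 hz t ht)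
  have hsub : ∀ η : ℝ, 0 < η → η < 1 / 2 → ∀ t ∈ Icc (shr a b η) (shr a b (1 - η)),
      ∀ i, a i < t i ∧ t i < b i := by
    intro η h0 h1 t ht i
    have e1 := ht.1 i
    have e2 := ht.2 i
    have e3 := hab i
    simp only [shr] at e1 e2
    constructor <;> nlinarith
  have hl0 : (T (F m0 m1 t)).eval 0 ≠ 0 := by
    intro h0
    apply hl
    rw [lam_apply, h0]; simp
  right
  intro s hs
  rcases hs with hs | rfl
  swap
  · exact hl0
  have hs0 : s ≠ 0 := by rintro rfl; simp at hs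
  obtain ⟨D, hD⟩ := exists_degree_bound (ι := ι) m0 m1 T
  let u : ℝ → ι → ℝ := fun η i => a i + η * (b i - a i) + (1 - 2 * η) * (t i - a i)
  have cu : Continuous u := by fun_prop
  have hu0 : u 0 = t := by ext i; simp [u]
  have hten : Tendsto u (𝓝[>] 0) (𝓝 t) := hu0 ▸ (cu.tendsto 0).mono_left nhdsWithin_le_nhds
  have c1 : ∀ z : ℂ, Continuous fun t : ι → ℝ => (T (F m0 m1 t)).eval z := fun z =>
    continuous_F m0 m1 (evs T z)
  have hle : ‖(T (F m0 m1 t)).eval 0‖ * (|s.im| / ‖s‖) ^ D ≤ ‖(T (F m0 m1 t)).eval s‖ := by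
    refine le_of_tendsto_of_tendsto (b := 𝓝[>] (0 : ℝ))
      ((((c1 0).tendsto t).comp hten).norm.mul_const _) (((c1 s).tendsto t).comp hten).norm ?_
    have e1 : ∀ᶠ η : ℝ in 𝓝[>] 0, η < 1 / 2 :=
      mem_nhdsWithin_of_mem_nhds (Iio_mem_nhds (by norm_num))
    filter_upwards [e1, self_mem_nhdsWithin] with η h1 h0
    have h0' : 0 < η := h0
    have hmem : u η ∈ Icc (shr a b η) (shr a b (1 - η)) := by
      constructor
      · intro i
        have := ht.1 i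
        simp only [shr, u]
        nlinarith
      · intro i
        have := ht.2 i
        simp only [shr, u]
        nlinarith
    have hg := core_nondeg m0 m1 T hre (h η h0'.le h1)
      (fun t ht => hint t (hsub η h0' h1 t ht)) _ hmem
    refine hurwitz_bound hs0 D _ (hD _) fun z hz => ?_
    rcases hg with hg | hg
    · exact absurd (by rw [lam_apply, hg]; simp) (hint _ (hsub η h0' h1 _ hmem))
    · by_contra hz'
      exact hg z (Or.inl hz') hz
  intro hz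
  rw [hz, norm_zero] at hle
  have : 0 < ‖(T (F m0 m1 t)).eval 0‖ * (|s.im| / ‖s‖) ^ D := by
    have := norm_pos_iff.2 hl0
    have := norm_pos_iff.2 hs0
    have := abs_pos.2 hs
    positivity
  linarith

theorem good_neg {p : ℂ[X]} : Good (-p) ↔ Good p := by
  unfold Good
  simp

theorem coreA_strict (m0 m1 : A) (T : A →ₗ[ℝ] ℂ[X]) (hre : ∀ x, ((T x).eval 0).im = 0)
    {a b : ι → ℝ} (hab : ∀ i, a i < b i)
    (h : ∀ η : ℝ, 0 ≤ η → η < 1 / 2 → ∀ t ∈ Icc (shr a b η) (shr a b (1 - η)),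
      IsTest (shr a b η) (shr a b (1 - η)) t → Good (T (F m0 m1 t))) :
    ∀ t ∈ Icc a b, Good (T (F m0 m1 t)) := by
  have htest := h 0 le_rfl (by norm_num)
  rw [shr_zero, shr_one] at htest
  rcases sign_cases m0 m1 T hre hab htest with h1 | h1 | h1
  · exact h1
  · exact coreA_nonneg m0 m1 T hre hab h h1
  · intro t ht
    exact good_neg.1 (coreA_nonneg m0 m1 (-T) (fun x => by simpa using hre x) hab
      (fun η h0 h1 t ht ht' => good_neg.2 (h η h0 h1 t ht ht')) h1 t ht)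

theorem coreA (m0 m1 : A) (T : A →ₗ[ℝ] ℂ[X]) (hre : ∀ x, ((T x).eval 0).im = 0)
    {a b : ι → ℝ}
    (h : ∀ η : ℝ, 0 ≤ η → η < 1 / 2 → ∀ t ∈ Icc (shr a b η) (shr a b (1 - η)),
      IsTest (shr a b η) (shr a b (1 - η)) t → Good (T (F m0 m1 t))) :
    ∀ t ∈ Icc a b, Good (T (F m0 m1 t)) := by
  intro t ht
  have hab : ∀ i, a i ≤ b i := fun i => (ht.1 i).trans (ht.2 i)
  let c : A := ∏ i : {i // ¬ a i < b i}, (m0 + a i • m1)
  have hF : ∀ u : ι → ℝ, (∀ i, ¬ a i < b i → u i = a i) →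
      F m0 m1 u = c * F m0 m1 fun i : {i // a i < b i} => u i := by
    intro u hu
    unfold F
    rw [← Fintype.prod_subtype_mul_prod_subtype (fun i => a i < b i), mul_comm]
    congr 1
    exact Finset.prod_congr rfl fun i _ => by rw [hu i i.2]
  have key := coreA_strict (ι := {i // a i < b i}) m0 m1 (T ∘ₗ LinearMap.mulLeft ℝ c)
    (fun x => hre _) (a := fun i => a i) (b := fun i => b i) (fun i => i.2) ?_
    (fun i => t i) ⟨fun i => ht.1 i, fun i => ht.2 i⟩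
  · rw [hF t fun i hi => le_antisymm ((ht.2 i).trans (not_lt.1 hi)) (ht.1 i)]
    exact key
  · intro η h0 h1 v hv hv'
    let u : ι → ℝ := fun i => if hi : a i < b i then v ⟨i, hi⟩ else a i
    have hu : (fun i : {i // a i < b i} => u i) = v := by
      ext i; simp [u, i.2]
    have hdeg : ∀ i, ¬ a i < b i → ∀ θ, shr a b θ i = a i := by
      intro i hi θ
      have : b i = a i := le_antisymm (not_lt.1 hi) (hab i)
      simp [shr, this]
    have := h η h0 h1 u ?_ ?_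
    · rw [hF u fun i hi => by simp [u, hi], hu] at this
      exact this
    · constructor
      · intro i
        by_cases hi : a i < b i
        · simpa [u, hi, shr] using hv.1 ⟨i, hi⟩
        · simp [u, hi, hdeg i hi]
      · intro i
        by_cases hi : a i < b i
        · simpa [u, hi, shr] using hv.2 ⟨i, hi⟩
        · simp [u, hi, hdeg i hi]
    · intro i j e1 e2 e3 e4
      by_cases hi : a i < b i
      · by_cases hj : a j < b j
        · simp only [u, hi, hj, dif_pos] at e1 e2 e3 e4 ⊢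
          exact hv' ⟨i, hi⟩ ⟨j, hj⟩ e1 e2 e3 e4
        · simp [u, hj, hdeg j hj] at e3
      · simp [u, hi, hdeg i hi] at e1

end Pool.Agent.MP_3d209c_an.H71
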