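import Pool.Agent.MP_3d209c_an.H71.Sharp

/-! Linear functionals on powers of linear forms. -/

open Finset Set Filter Topology

namespace Pool.Agent.MP_3d209c_an.H71

variable {n : ℕ}

theorem lin_eq (x : Fin n → ℝ) : lin x = ∑ i, x i • MvPolynomial.X i := by
  simp [lin, MvPolynomial.smul_eq_C_mul]

theorem map_lin_mul (A : MvPolynomial (Fin n) ℝ →ₗ[ℝ] ℝ) (x : Fin n → ℝ)
    (h : MvPolynomial (Fin n) ℝ) : A (lin x * h) = ∑ i, x i * A (MvPolynomial.X i * h) := by
  simp [lin_eq, Finset.sum_mul, map_sum]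

theorem lin_single (i : Fin n) : lin (Pi.single i 1) = MvPolynomial.X i := by
  rw [lin_eq, Finset.sum_eq_single i] <;> simp +contextual

theorem lin_sub (w w' : Fin n → ℝ) : lin (w - w') = lin w - lin w' := by
  rw [eq_sub_iff_add_eq, ← lin_add, sub_add_cancel]

theorem an_zero {E : Type*} [NormedAddCommGroup E] [NormedSpace ℝ E] {f : E → ℝ}
    (hf : ∀ x, AnalyticAt ℝ f x) {x0 : E} (h : ∀ᶠ x in 𝓝 x0, f x = 0) (x : E) : f x = 0 :=
  congrFun (AnalyticOnNhd.eq_of_eventuallyEq (𝕜 := ℝ) (g := fun _ => 0) (z₀ := x0)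
    (fun x _ => hf x) (fun _ _ => analyticAt_const) h) x

theorem an_cancel {E : Type*} [NormedAddCommGroup E] [NormedSpace ℝ E] {f g : E → ℝ}
    (hf : ∀ x, AnalyticAt ℝ f x) (hg : ∀ x, AnalyticAt ℝ g x) (h : ∀ x, f x * g x = 0) {x0 : E}
    (h0 : f x0 ≠ 0) (x : E) : g x = 0 :=
  an_zero hg (((hf x0).continuousAt.eventually_ne h0).mono
    fun x hx => (mul_eq_zero.1 (h x)).resolve_left hx) x

theorem analytic_coord (i : Fin n) (x : Fin n → ℝ) : AnalyticAt ℝ (fun l : Fin n → ℝ => l i) x :=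
  (ContinuousLinearMap.proj (R := ℝ) (φ := fun _ : Fin n => ℝ) i).analyticAt x

theorem analytic_pow (j : ℕ) : ∀ (A : MvPolynomial (Fin n) ℝ →ₗ[ℝ] ℝ) (x : Fin n → ℝ),
    AnalyticAt ℝ (fun l => A (lin l ^ j)) x := by
  induction j with
  | zero => intro A x; simpa using analyticAt_const
  | succ j ih =>
    intro A x
    simp only [pow_succ', map_lin_mul]
    exact Finset.analyticAt_fun_sum _ fun i _ => (analytic_coord i x).mul
      (ih (A ∘ₗ LinearMap.mulLeft ℝ (MvPolynomial.X i)) x)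

theorem analytic_pow' (j : ℕ) (A : MvPolynomial (Fin n) ℝ →ₗ[ℝ] ℝ) (g : MvPolynomial (Fin n) ℝ)
    (x : Fin n → ℝ) : AnalyticAt ℝ (fun l => A (g * lin l ^ j)) x :=
  analytic_pow j (A ∘ₗ LinearMap.mulLeft ℝ g) x

theorem analytic_pair (j : ℕ) (A : MvPolynomial (Fin n) ℝ →ₗ[ℝ] ℝ)
    (x : (Fin n → ℝ) × (Fin n → ℝ)) :
    AnalyticAt ℝ (fun p : (Fin n → ℝ) × (Fin n → ℝ) => A (lin p.1 * lin p.2 ^ j)) x := by
  simp only [map_lin_mul]
  exact Finset.analyticAt_fun_sum _ fun i _ =>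
    ((analytic_coord i x.1).comp analyticAt_fst).mul
      ((analytic_pow' j A (MvPolynomial.X i) x.2).comp analyticAt_snd)

theorem analytic_snd (j : ℕ) (A : MvPolynomial (Fin n) ℝ →ₗ[ℝ] ℝ)
    (x : (Fin n → ℝ) × (Fin n → ℝ)) :
    AnalyticAt ℝ (fun p : (Fin n → ℝ) × (Fin n → ℝ) => A (lin p.2 ^ j)) x :=
  (analytic_pow j A x.2).comp analyticAt_snd

theorem hasDerivAt_pow_lin (l u : Fin n → ℝ) (t : ℝ) (j : ℕ) :
    ∀ A : MvPolynomial (Fin n) ℝ →ₗ[ℝ] ℝ, HasDerivAt (fun t : ℝ => A (lin (l + t • u) ^ (j + 1)))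
      ((j + 1 : ℝ) * A (lin u * lin (l + t • u) ^ j)) t := by
  have hc : ∀ i, HasDerivAt (fun t : ℝ => (l + t • u) i) (u i) t := fun i => by
    simpa using ((hasDerivAt_id t).mul_const (u i)).const_add (l i)
  induction j with
  | zero =>
    intro A
    have : (fun t : ℝ => A (lin (l + t • u) ^ (0 + 1))) = fun t => A (lin l) + t * A (lin u) := by
      ext t; simp [lin_add, lin_smul]
    rw [this]
    simpa using ((hasDerivAt_id t).mul_const (A (lin u))).const_add (A (lin l))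
  | succ j ih =>
    intro A
    have h1 : (fun t : ℝ => A (lin (l + t • u) ^ (j + 1 + 1)))
        = fun t => ∑ i, (l + t • u) i * A (MvPolynomial.X i * lin (l + t • u) ^ (j + 1)) := by
      ext t; rw [pow_succ', map_lin_mul]
    rw [h1]
    have h2 := HasDerivAt.fun_sum (u := Finset.univ) fun i _ =>
      (hc i).fun_mul (ih (A ∘ₗ LinearMap.mulLeft ℝ (MvPolynomial.X i)))
    refine h2.congr_deriv (Eq.symm ?_)
    simp only [LinearMap.comp_apply, LinearMap.mulLeft_apply, Finset.sum_add_distrib]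
    rw [← map_lin_mul]
    have h3 : ∑ i, (l + t • u) i * ((j + 1 : ℝ) *
        A (MvPolynomial.X i * (lin u * lin (l + t • u) ^ j)))
        = (j + 1 : ℝ) * A (lin (l + t • u) * (lin u * lin (l + t • u) ^ j)) := by
      rw [map_lin_mul, Finset.mul_sum]
      exact Finset.sum_congr rfl fun i _ => by ring
    rw [h3, mul_left_comm (lin (l + t • u)), ← pow_succ']
    push_cast
    ring

theorem span_pow (j : ℕ) : ∀ A : MvPolynomial (Fin n) ℝ →ₗ[ℝ] ℝ, (∀ l, A (lin l ^ j) = 0) →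
    ∀ f : MvPolynomial (Fin n) ℝ, f.IsHomogeneous j → A f = 0 := by
  induction j with
  | zero =>
    intro A h f hf
    have h1 : f ∈ MvPolynomial.homogeneousSubmodule (Fin n) ℝ 0 := hf
    rw [MvPolynomial.homogeneousSubmodule_zero, Submodule.mem_one] at h1
    obtain ⟨c, rfl⟩ := h1
    rw [Algebra.algebraMap_eq_smul_one, map_smul]
    simpa using Or.inr (by simpa using h 0)
  | succ j ih =>
    intro A h f hf
    have h1 : ∀ u l, A (lin u * lin l ^ j) = 0 := by
      intro u l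
      have h2 := hasDerivAt_pow_lin l u 0 j A
      simp only [h, zero_smul, add_zero] at h2
      have h3 := h2.unique (hasDerivAt_const (0 : ℝ) (0 : ℝ))
      exact (mul_eq_zero.1 h3).resolve_left (by positivity)
    have h2 : f ∈ MvPolynomial.homogeneousSubmodule (Fin n) ℝ (j + 1) := hf
    rw [← MvPolynomial.homogeneousSubmodule_one_pow, pow_succ',
      MvPolynomial.homogeneousSubmodule_one_pow] at h2
    refine Submodule.mul_induction_on h2 (fun m hm g hg => ?_) fun x y hx hy => by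
      rw [map_add, hx, hy, add_zero]
    rw [MvPolynomial.homogeneousSubmodule_one_eq_span_X] at hm
    induction hm using Submodule.span_induction with
    | mem x hx =>
      obtain ⟨i, rfl⟩ := hx
      rw [← lin_single]
      exact ih (A ∘ₗ LinearMap.mulLeft ℝ (lin (Pi.single i 1))) (h1 _) g hg
    | zero => simp
    | add x y _ _ hx hy => rw [add_mul, map_add, hx, hy, add_zero]
    | smul c x _ hx => rw [smul_mul_assoc, map_smul, hx, smul_zero]

theorem span_pow_vec {M : Type*} [AddCommGroup M] [Module ℝ M] (j : ℕ)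
    (T : MvPolynomial (Fin n) ℝ →ₗ[ℝ] M) (h : ∀ l, T (lin l ^ j) = 0)
    (f : MvPolynomial (Fin n) ℝ) (hf : f.IsHomogeneous j) : T f = 0 := by
  rw [← Module.forall_dual_apply_eq_zero_iff ℝ]
  exact fun ψ => span_pow j (ψ ∘ₗ T) (fun l => by simp [h l]) f hf

theorem prop_of_wronskian (k : ℕ) (A B : MvPolynomial (Fin n) ℝ →ₗ[ℝ] ℝ)
    (h : ∀ u l, A (lin u * lin l ^ k) * B (lin l ^ (k + 1))
      = A (lin l ^ (k + 1)) * B (lin u * lin l ^ k)) (l l' : Fin n → ℝ) :
    A (lin l ^ (k + 1)) * B (lin l' ^ (k + 1)) = A (lin l' ^ (k + 1)) * B (lin l ^ (k + 1)) := by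
  by_cases h0 : ∀ l, B (lin l ^ (k + 1)) = 0
  · simp [h0]
  push Not at h0
  obtain ⟨l0, h0⟩ := h0
  have key : ∀ l, A (lin l ^ (k + 1)) * B (lin l0 ^ (k + 1))
      - A (lin l0 ^ (k + 1)) * B (lin l ^ (k + 1)) = 0 := by
    intro l
    let p : (MvPolynomial (Fin n) ℝ →ₗ[ℝ] ℝ) → ℝ → ℝ :=
      fun C t => C (lin (l0 + t • (l - l0)) ^ (k + 1))
    have hp : ∀ C t, AnalyticAt ℝ (p C) t := fun C t =>
      (analytic_pow (k + 1) C _).comp (f := fun t : ℝ => l0 + t • (l - l0))
        (analyticAt_const.add (analyticAt_id.smul analyticAt_const))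
    have hp0 : ∀ C, p C 0 = C (lin l0 ^ (k + 1)) := fun C => by simp [p]
    have hp1 : ∀ C, p C 1 = C (lin l ^ (k + 1)) := fun C => by simp [p]
    have e1 : ∀ᶠ t in 𝓝 (0 : ℝ), p B t ≠ 0 :=
      (hp B 0).continuousAt.eventually_ne (by rwa [hp0])
    obtain ⟨ε, hε, hball⟩ := Metric.eventually_nhds_iff_ball.1 e1
    have hder : ∀ t ∈ Metric.ball (0 : ℝ) ε, HasDerivAt (fun t => p A t / p B t) 0 t := by
      intro t ht
      have := (hasDerivAt_pow_lin l0 (l - l0) t k A).fun_div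
        (hasDerivAt_pow_lin l0 (l - l0) t k B) (hball t ht)
      refine this.congr_deriv ?_
      rw [div_eq_zero_iff]
      left
      linear_combination (k + 1 : ℝ) * h (l - l0) (l0 + t • (l - l0))
    obtain ⟨c, hc⟩ := Metric.isOpen_ball.exists_is_const_of_deriv_eq_zero
      (convex_ball (0 : ℝ) ε).isPreconnected
      (fun t ht => (hder t ht).differentiableAt.differentiableWithinAt)
      fun t ht => (hder t ht).deriv
    have := an_zero (f := fun t => p A t * p B 0 - p A 0 * p B t)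
      (fun t => ((hp A t).mul analyticAt_const).sub (analyticAt_const.mul (hp B t))) (x0 := 0)
      (by
        filter_upwards [Metric.ball_mem_nhds 0 hε] with t ht
        have h1 := hc t ht
        have h2 := hc 0 (Metric.mem_ball_self hε)
        rw [div_eq_iff (hball t ht)] at h1
        rw [div_eq_iff (hball 0 (Metric.mem_ball_self hε))] at h2
        rw [h1, h2]; ring) 1
    simpa only [hp0, hp1] using this
  apply mul_left_cancel₀ h0
  linear_combination B (lin l' ^ (k + 1)) * key l - B (lin l ^ (k + 1)) * key l'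

theorem pow_add_perp {M : Type*} [AddCommGroup M] [Module ℝ M] (k : ℕ)
    (T : MvPolynomial (Fin n) ℝ →ₗ[ℝ] M) {l l' : Fin n → ℝ}
    (h : ∀ x, T (lin (l - l') * lin x ^ k) = 0) : T (lin l ^ (k + 1)) = T (lin l' ^ (k + 1)) := by
  rw [← sub_eq_zero, ← map_sub, ← (Commute.all _ _).mul_geom_sum₂, ← lin_sub]
  refine span_pow_vec k (T ∘ₗ LinearMap.mulLeft ℝ (lin (l - l'))) h _
    (MvPolynomial.IsHomogeneous.sum _ _ _ fun i hi => ?_)
  have := ((lin_homogeneous l).pow i).mul ((lin_homogeneous l').pow (k + 1 - 1 - i))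
  convert this using 1
  have := Finset.mem_range.1 hi
  omega

theorem eval_of_perp (k : ℕ) (A : MvPolynomial (Fin n) ℝ →ₗ[ℝ] ℝ) {e l0 : Fin n → ℝ}
    (h0 : l0 ⬝ᵥ e = 1) (h : ∀ m, m ⬝ᵥ e = 0 → ∀ l, A (lin m * lin l ^ k) = 0)
    (f : MvPolynomial (Fin n) ℝ) (hf : f.IsHomogeneous (k + 1)) :
    A f = MvPolynomial.eval e f * A (lin l0 ^ (k + 1)) := by
  have := span_pow (k + 1) (A - A (lin l0 ^ (k + 1)) • evl e) (fun l => ?_) f hf
  · simp only [LinearMap.sub_apply, LinearMap.smul_apply, evl_apply, smul_eq_mul] at this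
    linarith
  · simp only [LinearMap.sub_apply, LinearMap.smul_apply, evl_apply, smul_eq_mul, map_pow,
      eval_lin]
    rw [pow_add_perp k A (l' := (l ⬝ᵥ e) • l0) (h _ (by simp [h0])), lin_smul, smul_pow, map_smul]
    simp only [smul_eq_mul]
    ring

end Pool.Agent.MP_3d209c_an.H71
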