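import Pool.Agent.MP_3d209c_an.H71.Core

/-!
The real step (zeros of one real functional), positivity inside the box and the rank one lemma.
-/

open Finset Set Filter Topology

namespace Pool.Agent.MP_3d209c_an.H71

variable {A : Type*} [CommRing A] [Algebra ℝ A] {ι : Type*} [Fintype ι] [DecidableEq ι]

theorem exists_rigid {E : Type*} [NormedAddCommGroup E] [NormedSpace ℝ E] (m0 m1 : A)
    (φ : A →ₗ[ℝ] E) (μ : A →ₗ[ℝ] ℝ) {a b t0 : ι → ℝ} (ht0 : t0 ∈ Icc a b)
    (h0 : φ (F m0 m1 t0) = 0) (hμ : 0 < μ (F m0 m1 t0)) :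
    ∃ t ∈ Icc a b, φ (F m0 m1 t) = 0 ∧ 0 < μ (F m0 m1 t) ∧
      ∀ i j, t i ≠ t j → a i < t i → t i < b i → a j < t j → t j < b j → ∀ α β : ℝ,
        α • φ (H2 m0 m1 t i j * (m0 * m1)) + β • φ (H2 m0 m1 t i j * m1 ^ 2) = 0 →
          α = 0 ∧ β = 0 := by
  obtain ⟨C, hC⟩ := (isCompact_Icc (a := a) (b := b)).bddAbove_image
    (continuous_Q (ι := ι)).continuousOn
  have hC' : ∀ t ∈ Icc a b, Q t ≤ C := fun t ht => hC (mem_image_of_mem _ ht)
  have hC0 : 0 ≤ C := (Q_nonneg t0).trans (hC' t0 ht0)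
  set δ : ℝ := μ (F m0 m1 t0) / (C + 1) with hδ
  have hδ0 : 0 < δ := by positivity
  have hδ1 : δ * (C + 1) = μ (F m0 m1 t0) := by rw [hδ]; field_simp
  have hK : IsCompact (Icc a b ∩ {t | φ (F m0 m1 t) = 0}) :=
    isCompact_Icc.inter_right (isClosed_eq (continuous_F m0 m1 φ) continuous_const)
  have hcont : Continuous fun t : ι → ℝ => μ (F m0 m1 t) + δ * Q t :=
    (continuous_F m0 m1 μ).add (continuous_const.mul continuous_Q)
  obtain ⟨t, ⟨ht, hφ⟩, hmax⟩ := hK.exists_isMaxOn ⟨t0, ht0, h0⟩ hcont.continuousOn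
  refine ⟨t, ht, hφ, ?_, fun i j hij h1 h2 h3 h4 α β hk => ?_⟩
  · have h1 : μ (F m0 m1 t0) + δ * Q t0 ≤ μ (F m0 m1 t) + δ * Q t := hmax ⟨ht0, h0⟩
    have h2 : δ * Q t ≤ δ * C := mul_le_mul_of_nonneg_left (hC' t ht) hδ0.le
    have h3 : 0 ≤ δ * Q t0 := mul_nonneg hδ0.le (Q_nonneg t0)
    nlinarith
  · exact var_lemma m0 m1 φ μ hδ0 ht hφ (fun t' ht' h' => hmax ⟨ht', h'⟩) hij h1 h2 h3 h4 hk

theorem real_step_le (m0 m1 : A) (l μ : A →ₗ[ℝ] ℝ) {a b : ι → ℝ}
    (h : ∀ t ∈ Icc a b, IsTest a b t → l (F m0 m1 t) = 0 → μ (F m0 m1 t) ≤ 0) :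
    ∀ t ∈ Icc a b, l (F m0 m1 t) = 0 → μ (F m0 m1 t) ≤ 0 := by
  intro t0 ht0 h0
  by_contra hμ
  obtain ⟨t, ht, hz, hpos, hr⟩ := exists_rigid m0 m1 l μ ht0 h0 (not_le.1 hμ)
  refine absurd (h t ht (fun i j h1 h2 h3 h4 => ?_) hz) (not_le.2 hpos)
  by_contra hij
  have e1 := hr i j hij h1 h2 h3 h4 (l (H2 m0 m1 t i j * m1 ^ 2))
    (-l (H2 m0 m1 t i j * (m0 * m1))) (by simp only [smul_eq_mul]; ring)
  have e2 := hr i j hij h1 h2 h3 h4 1 0 (by rw [neg_eq_zero.1 e1.2]; simp)
  exact one_ne_zero e2.1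

theorem real_step {M : Type*} [AddCommGroup M] [Module ℝ M] (m0 m1 : A) (l : A →ₗ[ℝ] ℝ)
    (T : A →ₗ[ℝ] M) {a b : ι → ℝ}
    (h : ∀ t ∈ Icc a b, IsTest a b t → l (F m0 m1 t) = 0 → T (F m0 m1 t) = 0) :
    ∀ t ∈ Icc a b, l (F m0 m1 t) = 0 → T (F m0 m1 t) = 0 := by
  intro t ht h0
  rw [← Module.forall_dual_apply_eq_zero_iff ℝ]
  intro ψ
  have h1 := real_step_le m0 m1 l (ψ ∘ₗ T) (a := a) (b := b)
    (fun t ht h1 h2 => by simp [h t ht h1 h2]) t ht h0
  have h2 := real_step_le m0 m1 l (-(ψ ∘ₗ T)) (a := a) (b := b)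
    (fun t ht h1 h2 => by simp [h t ht h1 h2]) t ht h0
  simp only [LinearMap.comp_apply, LinearMap.neg_apply] at h1 h2
  linarith

omit [Fintype ι] in
theorem update_mem_Icc {a b t : ι → ℝ} (ht : t ∈ Icc a b) (i : ι) {x : ℝ}
    (hx : x ∈ Icc (a i) (b i)) : Function.update t i x ∈ Icc a b := by
  constructor
  · intro k
    by_cases hk : k = i
    · subst hk; simpa using hx.1
    · rw [Function.update_of_ne hk]; exact ht.1 k
  · intro k
    by_cases hk : k = i
    · subst hk; simpa using hx.2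
    · rw [Function.update_of_ne hk]; exact ht.2 k

theorem F_update_affine (m0 m1 : A) (φ : A →ₗ[ℝ] ℝ) (t : ι → ℝ) (i : ι) (x : ℝ) :
    φ (F m0 m1 (Function.update t i x)) = φ (F m0 m1 (Function.update t i 0))
      + x * (φ (F m0 m1 (Function.update t i 1)) - φ (F m0 m1 (Function.update t i 0))) := by
  simp only [F_update, map_add, map_smul, smul_eq_mul]
  ring

theorem zero_of_interior_zero (m0 m1 : A) (l : A →ₗ[ℝ] ℝ) {a b t0 : ι → ℝ}
    (h : ∀ t ∈ Icc a b, 0 ≤ l (F m0 m1 t)) (h0 : ∀ i, a i < t0 i ∧ t0 i < b i)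
    (hz : l (F m0 m1 t0) = 0) : ∀ t ∈ Icc a b, l (F m0 m1 t) = 0 := by
  intro t ht
  have hmem : ∀ S : Finset ι, S.piecewise t t0 ∈ Icc a b := fun S =>
    S.piecewise_mem_Icc_of_mem_of_mem ht ⟨fun i => (h0 i).1.le, fun i => (h0 i).2.le⟩
  have key : ∀ S : Finset ι, l (F m0 m1 (S.piecewise t t0)) = 0 := by
    intro S
    induction S using Finset.induction_on with
    | empty => simpa using hz
    | insert i S hi ih =>
      rw [Finset.piecewise_insert]
      set r := S.piecewise t t0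
      have hri : r i = t0 i := Finset.piecewise_eq_of_notMem _ _ _ hi
      have hab : a i ≤ b i := ((h0 i).1.trans (h0 i).2).le
      have e0 := F_update_affine m0 m1 l r i (t0 i)
      rw [← hri, Function.update_eq_self, ih, hri] at e0
      have ea := h _ (update_mem_Icc (hmem S) i (x := a i) ⟨le_rfl, hab⟩)
      have eb := h _ (update_mem_Icc (hmem S) i (x := b i) ⟨hab, le_rfl⟩)
      rw [F_update_affine] at ea eb ⊢
      set α := l (F m0 m1 (Function.update r i 0))
      set β := l (F m0 m1 (Function.update r i 1)) - α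
      have hβ : β = 0 := by
        have h1 := (h0 i).1
        have h2 := (h0 i).2
        apply le_antisymm <;> nlinarith
      rw [hβ] at e0 ⊢
      linarith
  simpa using key univ

theorem analytic_update (m0 m1 : A) (φ : A →ₗ[ℝ] ℝ) (i : ι) (x : ℝ) (t0 : ι → ℝ) :
    AnalyticAt ℝ (fun t : ι → ℝ => φ (F m0 m1 (Function.update t i x))) t0 := by
  have h1 : AnalyticAt ℝ (fun t : ι → ℝ => Function.update t i x) t0 := by
    refine AnalyticAt.pi fun k => ?_
    by_cases hk : k = i
    · subst hk; simpa using analyticAt_const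
    · simp only [Function.update_of_ne hk]
      exact (ContinuousLinearMap.proj (R := ℝ) (φ := fun _ : ι => ℝ) k).analyticAt t0
  exact (analytic_F m0 m1 φ _).comp h1

omit [DecidableEq ι] in
theorem exists_interior (m0 m1 : A) (l : A →ₗ[ℝ] ℝ) {a b t : ι → ℝ} (hab : ∀ i, a i < b i)
    (ht : t ∈ Icc a b) (hp : 0 < l (F m0 m1 t)) :
    ∃ t' : ι → ℝ, (∀ i, a i < t' i ∧ t' i < b i) ∧ 0 < l (F m0 m1 t') := by
  have h1 : t ∈ closure (Set.pi univ fun i => Ioo (a i) (b i)) := by
    rw [closure_pi_set]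
    intro i _
    simp only
    rw [closure_Ioo (hab i).ne]
    exact ⟨ht.1 i, ht.2 i⟩
  obtain ⟨t', h2, h3⟩ := mem_closure_iff.1 h1 {t | 0 < l (F m0 m1 t)}
    (isOpen_lt continuous_const (continuous_F m0 m1 l)) hp
  exact ⟨t', fun i => h3 i (mem_univ i), h2⟩

theorem exists_crossing (m0 m1 : A) (l : A →ₗ[ℝ] ℝ) {a b tp tm : ι → ℝ}
    (htp : ∀ i, a i < tp i ∧ tp i < b i) (htm : ∀ i, a i < tm i ∧ tm i < b i)
    (hp : 0 < l (F m0 m1 tp)) (hm : l (F m0 m1 tm) < 0) :
    ∃ (t0 : ι → ℝ) (i : ι), (∀ k, a k < t0 k ∧ t0 k < b k) ∧ l (F m0 m1 t0) = 0 ∧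
      l (F m0 m1 (Function.update t0 i 1)) - l (F m0 m1 (Function.update t0 i 0)) ≠ 0 := by
  by_contra hcon
  push Not at hcon
  have hmem : ∀ (S : Finset ι) k, a k < S.piecewise tp tm k ∧ S.piecewise tp tm k < b k := by
    intro S k
    by_cases hk : k ∈ S
    · rw [Finset.piecewise_eq_of_mem _ _ _ hk]; exact htp k
    · rw [Finset.piecewise_eq_of_notMem _ _ _ hk]; exact htm k
  have key : ∀ S : Finset ι, l (F m0 m1 (S.piecewise tp tm)) < 0 := by
    intro S
    induction S using Finset.induction_on with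
    | empty => simpa using hm
    | insert i S hi ih =>
      rw [Finset.piecewise_insert]
      set r := S.piecewise tp tm
      by_contra hge
      have e0 := F_update_affine m0 m1 l r i (r i)
      rw [Function.update_eq_self] at e0
      rw [F_update_affine] at hge
      have hcont : Continuous fun x : ℝ => l (F m0 m1 (Function.update r i x)) := by
        have : (fun x : ℝ => l (F m0 m1 (Function.update r i x))) = fun x =>
            l (F m0 m1 (Function.update r i 0)) + x * (l (F m0 m1 (Function.update r i 1))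
              - l (F m0 m1 (Function.update r i 0))) := funext fun x => F_update_affine _ _ _ _ _ _
        rw [this]; fun_prop
      have hiv := intermediate_value_uIcc (a := r i) (b := tp i) hcont.continuousOn
      have h0 : (0 : ℝ) ∈ uIcc (l (F m0 m1 (Function.update r i (r i))))
          (l (F m0 m1 (Function.update r i (tp i)))) := by
        rw [Function.update_eq_self, F_update_affine]
        exact mem_uIcc_of_le ih.le (not_lt.1 hge)
      obtain ⟨x, hx, hx0⟩ := hiv h0
      have hxi : a i < x ∧ x < b i := by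
        have h1 := hmem S i
        have h2 := htp i
        rcases mem_uIcc.1 hx with h | h
        · exact ⟨h1.1.trans_le h.1, h.2.trans_lt h2.2⟩
        · exact ⟨h2.1.trans_le h.1, h.2.trans_lt h1.2⟩
      have := hcon (Function.update r i x) i (fun k => by
        by_cases hk : k = i
        · subst hk; simpa using hxi
        · rw [Function.update_of_ne hk]; exact hmem S k) hx0
      simp only [Function.update_idem] at this
      rw [this] at e0 hge
      exact hge (by linarith)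
  have := key univ
  rw [Finset.piecewise_univ] at this
  linarith

theorem F_update_swap (m0 m1 : A) (t : ι → ℝ) (i j : ι) (x : ℝ) :
    F m0 m1 (Function.update (t ∘ Equiv.swap i j) i x) = F m0 m1 (Function.update t j x) := by
  unfold F
  rw [← Equiv.prod_comp (Equiv.swap i j) fun k => m0 + Function.update t j x k • m1]
  refine Finset.prod_congr rfl fun k _ => ?_
  by_cases hk : k = i
  · subst hk; simp
  · have : Equiv.swap i j k ≠ j := by
      intro h
      apply hk
      have := congrArg (Equiv.swap i j) h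
      simpa using this
    rw [Function.update_of_ne hk, Function.update_of_ne this, Function.comp_apply]

theorem rank_one (m0 m1 : A) (l μ : A →ₗ[ℝ] ℝ) {a b tp tm : ι → ℝ} (hab : ∀ i, a i < b i)
    (h : ∀ t ∈ Icc a b, l (F m0 m1 t) = 0 → μ (F m0 m1 t) = 0)
    (htp : tp ∈ Icc a b) (htm : tm ∈ Icc a b) (hp : 0 < l (F m0 m1 tp))
    (hm : l (F m0 m1 tm) < 0) (t t' : ι → ℝ) :
    l (F m0 m1 t) * μ (F m0 m1 t') = l (F m0 m1 t') * μ (F m0 m1 t) := by
  obtain ⟨tp', htp', hp'⟩ := exists_interior m0 m1 l hab htp hp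
  obtain ⟨tm', htm', hm'⟩ := exists_interior m0 m1 (-l) hab htm (by simpa using hm)
  obtain ⟨t0, i, ht0, hz, hβ⟩ := exists_crossing m0 m1 l htp' htm' hp' (by simpa using hm')
  let u : (A →ₗ[ℝ] ℝ) → ℝ → (ι → ℝ) → ℝ := fun φ x t => φ (F m0 m1 (Function.update t i x))
  have hu : ∀ φ x t, AnalyticAt ℝ (u φ x) t := fun φ x t => analytic_update m0 m1 φ i x t
  have hD : (fun t => u l 0 t * u μ 1 t) = fun t => u l 1 t * u μ 0 t := by
    refine AnalyticOnNhd.eq_of_eventuallyEq (𝕜 := ℝ) (z₀ := t0)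
      (fun t _ => (hu _ _ t).mul (hu _ _ t)) (fun t _ => (hu _ _ t).mul (hu _ _ t)) ?_
    have c1 : ContinuousAt (fun t => u l 1 t - u l 0 t) t0 :=
      (hu _ _ _).continuousAt.sub (hu _ _ _).continuousAt
    have c2 : ContinuousAt (fun t => -u l 0 t / (u l 1 t - u l 0 t)) t0 :=
      (hu _ _ _).continuousAt.neg.div c1 hβ
    have hv : -u l 0 t0 / (u l 1 t0 - u l 0 t0) = t0 i := by
      have e0 := F_update_affine m0 m1 l t0 i (t0 i)
      rw [Function.update_eq_self, hz] at e0
      rw [div_eq_iff hβ]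
      simp only [u]
      linarith
    have e1 : ∀ᶠ t in 𝓝 t0, u l 1 t - u l 0 t ≠ 0 := c1.eventually_ne hβ
    have e2 : ∀ᶠ t in 𝓝 t0, -u l 0 t / (u l 1 t - u l 0 t) ∈ Icc (a i) (b i) :=
      c2.eventually (by simp only; rw [hv]; exact Icc_mem_nhds (ht0 i).1 (ht0 i).2)
    have e3 : ∀ᶠ t in 𝓝 t0, t ∈ Icc a b :=
      pi_Icc_mem_nhds (fun k => (ht0 k).1) (fun k => (ht0 k).2)
    filter_upwards [e1, e2, e3] with t h1 h2 h3
    have h4 := h _ (update_mem_Icc h3 i h2) (by
      rw [F_update_affine]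
      change u l 0 t + -u l 0 t / (u l 1 t - u l 0 t) * (u l 1 t - u l 0 t) = 0
      field_simp
      ring)
    rw [F_update_affine] at h4
    change u μ 0 t + -u l 0 t / (u l 1 t - u l 0 t) * (u μ 1 t - u μ 0 t) = 0 at h4
    field_simp at h4
    linarith
  have hpar : ∀ (j : ι) (t : ι → ℝ) (x y : ℝ),
      l (F m0 m1 (Function.update t j x)) * μ (F m0 m1 (Function.update t j y))
        = l (F m0 m1 (Function.update t j y)) * μ (F m0 m1 (Function.update t j x)) := by
    intro j t x y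
    have h1 := congrFun hD (t ∘ Equiv.swap i j)
    simp only [u, F_update_swap] at h1
    rw [F_update_affine m0 m1 l t j x, F_update_affine m0 m1 l t j y,
      F_update_affine m0 m1 μ t j x, F_update_affine m0 m1 μ t j y]
    linear_combination (y - x) * h1
  have hν : (fun t : ι → ℝ => l (F m0 m1 tp) * μ (F m0 m1 t))
      = fun t => l (F m0 m1 t) * μ (F m0 m1 tp) := by
    refine AnalyticOnNhd.eq_of_eventuallyEq (𝕜 := ℝ) (z₀ := tp)
      (fun t _ => analyticAt_const.mul (analytic_F m0 m1 μ t))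
      (fun t _ => (analytic_F m0 m1 l t).mul analyticAt_const) ?_
    have e1 : ∀ᶠ t in 𝓝 tp, l (F m0 m1 t) ≠ 0 :=
      (continuous_F m0 m1 l).continuousAt.eventually_ne hp.ne'
    obtain ⟨ε, hε, hball⟩ := Metric.eventually_nhds_iff.1 e1
    filter_upwards [Metric.ball_mem_nhds tp hε] with t ht
    have hin : ∀ S : Finset ι, l (F m0 m1 (S.piecewise t tp)) ≠ 0 := by
      intro S
      apply hball
      rw [dist_pi_lt_iff hε]
      intro k
      by_cases hk : k ∈ S
      · rw [Finset.piecewise_eq_of_mem _ _ _ hk]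
        exact (dist_pi_lt_iff hε).1 ht k
      · rw [Finset.piecewise_eq_of_notMem _ _ _ hk]; simpa using hε
    have key : ∀ S : Finset ι, l (F m0 m1 tp) * μ (F m0 m1 (S.piecewise t tp))
        = l (F m0 m1 (S.piecewise t tp)) * μ (F m0 m1 tp) := by
      intro S
      induction S using Finset.induction_on with
      | empty => simp
      | insert j S hj ih =>
        rw [Finset.piecewise_insert]
        have h1 := hpar j (S.piecewise t tp) (S.piecewise t tp j) (t j)
        rw [Function.update_eq_self] at h1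
        apply mul_left_cancel₀ (hin S)
        linear_combination l (F m0 m1 tp) * h1
          + l (F m0 m1 (Function.update (S.piecewise t tp) j (t j))) * ih
    simpa using key univ
  have h1 := congrFun hν t
  have h2 := congrFun hν t'
  apply mul_left_cancel₀ hp.ne'
  linear_combination l (F m0 m1 t) * h2 - l (F m0 m1 t') * h1

end Pool.Agent.MP_3d209c_an.H71
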