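import Pool.Agent.MP_3d209c_an.H71.Target

/-!
If the cone is invariant under a subspace of codimension at most two, its hyperbolic
polynomials are products of members of one pencil of linear forms.
-/

open Finset Set Filter Topology

namespace Pool.Agent.MP_3d209c_an.H71

variable {n : ℕ}

theorem eval_lin (w x : Fin n → ℝ) : MvPolynomial.eval x (lin w) = w ⬝ᵥ x := by
  simp [lin, dotProduct]

theorem lin_add (w w' : Fin n → ℝ) : lin (w + w') = lin w + lin w' := by
  simp [lin, add_mul, Finset.sum_add_distrib]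

theorem lin_smul (c : ℝ) (w : Fin n → ℝ) : lin (c • w) = c • lin w := by
  simp [lin, Finset.mul_sum, MvPolynomial.smul_eq_C_mul, mul_assoc]

theorem lin_homogeneous (w : Fin n → ℝ) : (lin w).IsHomogeneous 1 :=
  MvPolynomial.IsHomogeneous.sum _ _ _ fun i _ => MvPolynomial.isHomogeneous_C_mul_X _ i

theorem aeval_lin (w α e : Fin n → ℝ) (z : ℂ) :
    MvPolynomial.aeval (fun i => (α i : ℂ) + z * (e i : ℂ)) (lin w)
      = ((w ⬝ᵥ α : ℝ) : ℂ) + z * ((w ⬝ᵥ e : ℝ) : ℂ) := by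
  simp only [lin, map_sum, map_mul, MvPolynomial.aeval_C, MvPolynomial.aeval_X, dotProduct,
    Complex.ofReal_sum, Complex.ofReal_mul, Finset.mul_sum, ← Finset.sum_add_distrib,
    Complex.coe_algebraMap]
  exact Finset.sum_congr rfl fun i _ => by ring

theorem prod_lin_mem {ι : Type*} [Fintype ι] {V : Set (Fin n → ℝ)} (w : ι → Fin n → ℝ)
    (hw : ∀ i, ∀ e ∈ V, w i ⬝ᵥ e ≠ 0) : ∏ i, lin (w i) ∈ HV V := by
  refine ⟨⟨_, MvPolynomial.IsHomogeneous.prod univ _ (fun _ => 1) fun i _ => lin_homogeneous _⟩,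
    fun e he => ⟨?_, fun α z hz => ?_⟩⟩
  · rw [map_prod]
    exact Finset.prod_ne_zero_iff.2 fun i _ => by rw [eval_lin]; exact hw i e he
  · rw [map_prod] at hz
    obtain ⟨i, _, hi⟩ := Finset.prod_eq_zero_iff.1 hz
    rw [aeval_lin] at hi
    have := congrArg Complex.im hi
    simp only [Complex.add_im, Complex.ofReal_im, Complex.mul_im, Complex.ofReal_re, mul_zero,
      zero_add, Complex.zero_im] at this
    exact (mul_eq_zero.1 this).resolve_right (hw i e he)

theorem smul_mem {V : Set (Fin n → ℝ)} {g : MvPolynomial (Fin n) ℝ} (hg : g ∈ HV V ∪ {0})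
    (c : ℝ) : c • g ∈ HV V ∪ {0} := by
  rcases eq_or_ne c 0 with h | h
  · right; simp [h]
  rcases hg with ⟨⟨d, hd⟩, hg⟩ | hg
  · refine Or.inl ⟨⟨d, ?_⟩, fun e he => ⟨?_, fun α z hz => (hg e he).2 α z ?_⟩⟩
    · rw [MvPolynomial.smul_eq_C_mul]; exact hd.C_mul c
    · rw [MvPolynomial.smul_eval]; exact mul_ne_zero h (hg e he).1
    · rw [map_smul] at hz
      exact (smul_eq_zero.1 hz).resolve_left h
  · right; simp [Set.mem_singleton_iff.1 hg]

theorem exists_functional (L : Submodule ℝ (Fin n → ℝ)) {x : Fin n → ℝ} (hx : x ∉ L) :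
    ∃ φ : (Fin n → ℝ) →ₗ[ℝ] ℝ, φ x = 1 ∧ ∀ y ∈ L, φ y = 0 := by
  obtain ⟨f, hf, hL⟩ := L.exists_dual_map_eq_bot_of_notMem hx inferInstance
  refine ⟨(f x)⁻¹ • f, by simp [hf], fun y hy => ?_⟩
  have : f y = 0 := by
    rw [← Submodule.mem_bot ℝ, ← hL]; exact Submodule.mem_map_of_mem hy
  simp [this]

theorem exists_vec (φ : (Fin n → ℝ) →ₗ[ℝ] ℝ) : ∃ w : Fin n → ℝ, ∀ x, w ⬝ᵥ x = φ x := by
  refine ⟨fun i => φ fun j => if i = j then 1 else 0, fun x => ?_⟩
  rw [LinearMap.pi_apply_eq_sum_univ φ x, dotProduct]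
  exact Finset.sum_congr rfl fun i _ => by simp [mul_comm]

theorem exists_frame (L : Submodule ℝ (Fin n → ℝ)) (hL : n ≤ Module.finrank ℝ L + 2)
    {e : Fin n → ℝ} (he : e ∉ L) :
    ∃ m0 m1 α : Fin n → ℝ, m0 ⬝ᵥ e = 1 ∧ m1 ⬝ᵥ e = 0 ∧
      ∀ x, x - ((m0 ⬝ᵥ x) • e + (m1 ⬝ᵥ x) • α) ∈ L := by
  obtain ⟨φ0, h0, h0L⟩ := exists_functional L he
  obtain ⟨m0, hm0⟩ := exists_vec φ0
  by_cases hK : LinearMap.ker φ0 ≤ L
  · refine ⟨m0, 0, 0, by rw [hm0, h0], by simp, fun x => hK ?_⟩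
    simp [hm0, h0]
  · obtain ⟨α, hα, hαL⟩ := SetLike.not_le_iff_exists.1 hK
    have hα' : φ0 α = 0 := hα
    obtain ⟨ψ, h1, h1L⟩ := exists_functional L hαL
    let φ1 : (Fin n → ℝ) →ₗ[ℝ] ℝ := ψ - ψ e • φ0
    have e1 : φ1 e = 0 := by simp [φ1, h0]
    have e2 : φ1 α = 1 := by simp [φ1, h1, hα']
    obtain ⟨m1, hm1⟩ := exists_vec φ1
    have hle : L ≤ LinearMap.ker φ0 ⊓ LinearMap.ker φ1 := fun y hy =>
      ⟨h0L y hy, by simp [φ1, h0L y hy, h1L y hy]⟩
    have hlt1 : LinearMap.ker φ0 ⊓ LinearMap.ker φ1 < LinearMap.ker φ0 := by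
      refine lt_of_le_of_ne inf_le_left fun h => ?_
      have : α ∈ LinearMap.ker φ0 ⊓ LinearMap.ker φ1 := by rw [h]; exact hα
      have h2 : φ1 α = 0 := this.2
      rw [e2] at h2
      exact one_ne_zero h2
    have hlt2 : LinearMap.ker φ0 < ⊤ := by
      refine lt_top_iff_ne_top.2 fun h => ?_
      have : e ∈ LinearMap.ker φ0 := by rw [h]; trivial
      have h2 : φ0 e = 0 := this
      rw [h0] at h2
      exact one_ne_zero h2
    have d1 := Submodule.finrank_lt_finrank_of_lt hlt1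
    have d2 := Submodule.finrank_lt_finrank_of_lt hlt2
    rw [finrank_top, Module.finrank_fin_fun] at d2
    have heq : L = LinearMap.ker φ0 ⊓ LinearMap.ker φ1 :=
      Submodule.eq_of_le_of_finrank_le hle (by omega)
    refine ⟨m0, m1, α, by rw [hm0, h0], by rw [hm1, e1], fun x => ?_⟩
    rw [heq]
    constructor
    · simp [hm0, h0, hα']
    · simp [hm1, e1, e2]

theorem infinite_nonreal {P : ℂ → Prop} (h : ∀ z : ℂ, z.im ≠ 0 → P z) : Set.Infinite {z | P z} := by
  refine Set.infinite_of_injective_forall_mem (f := fun k : ℕ => ((k : ℂ) + 1) * Complex.I) ?_ ?_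
  · intro k k' hk
    have := mul_right_cancel₀ Complex.I_ne_zero hk
    exact_mod_cast add_right_cancel this
  · intro k
    apply h
    simp
    positivity

theorem invariance {V : Set (Fin n → ℝ)} {f : MvPolynomial (Fin n) ℝ} (hf : f ∈ HV V)
    {e y : Fin n → ℝ} (hy : ∀ r : ℝ, e + r • y ∈ V) (x : Fin n → ℝ) :
    MvPolynomial.eval (x + y) f = MvPolynomial.eval x f := by
  have h1 : ∀ z : ℂ, z.im ≠ 0 →
      (pl (fun i => ((x + y) i : ℂ)) (fun i => (e i : ℂ)) f).eval z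
        = (pl (fun i => (x i : ℂ)) (fun i => (e i : ℂ)) f).eval z := by
    intro z hz
    set P := pl (fun i => (x i : ℂ) + z * e i) (fun i => (y i : ℂ)) f with hP
    have hnz : ∀ τ, P.eval τ ≠ 0 := by
      intro τ hτ
      rw [hP, eval_pl] at hτ
      have h2 := (hf.2 _ (hy (τ.im / z.im))).2 (x + z.re • e + τ.re • y) (z.im * Complex.I) (by
        rw [← hτ]
        congr 2
        ext i
        have hz' : (z.im : ℂ) ≠ 0 := by exact_mod_cast hz
        simp only [Pi.add_apply, Pi.smul_apply, smul_eq_mul, Complex.ofReal_add,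
          Complex.ofReal_mul, Complex.ofReal_div]
        conv_rhs => rw [← Complex.re_add_im z, ← Complex.re_add_im τ]
        field_simp
        ring)
      simp [hz] at h2
    have hdeg : P.degree ≤ 0 := by
      by_contra h
      obtain ⟨τ, hτ⟩ := Complex.exists_root (not_le.1 h)
      exact hnz τ hτ
    have h3 : P.eval 1 = P.eval 0 := by
      rw [Polynomial.eq_C_of_degree_le_zero hdeg]; simp
    rw [hP, eval_pl, eval_pl] at h3
    rw [eval_pl, eval_pl]
    convert h3 using 3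
    · ext i; simp; ring
    · ext i; simp
  have h2 := Polynomial.eq_of_infinite_eval_eq _ _ (infinite_nonreal h1)
  have h3 := congrArg (Polynomial.eval 0) h2
  rw [eval_pl, eval_pl] at h3
  simp only [zero_mul, add_zero, aeval_ofReal] at h3
  exact_mod_cast h3

theorem factor_univariate (d : ℕ) : ∀ p : Polynomial ℂ, p.natDegree ≤ d → p.eval 0 ≠ 0 →
    (∀ z, p.eval z = 0 → z.im = 0) →
    ∃ ρ : Fin d → ℝ, ∀ s : ℂ, p.eval s = p.eval 0 * ∏ i, (1 + (ρ i : ℂ) * s) := by
  have hconst : ∀ (d : ℕ) (p : Polynomial ℂ), p.natDegree = 0 →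
      ∃ ρ : Fin d → ℝ, ∀ s : ℂ, p.eval s = p.eval 0 * ∏ i, (1 + (ρ i : ℂ) * s) := by
    intro d p hp
    refine ⟨0, fun s => ?_⟩
    rw [Polynomial.eq_C_of_natDegree_eq_zero hp]
    simp
  induction d with
  | zero => intro p hp _ _; exact hconst 0 p (Nat.le_zero.1 hp)
  | succ d ih =>
    intro p hp hp0 hz
    by_cases h0 : p.natDegree = 0
    · exact hconst _ p h0
    obtain ⟨r, hr⟩ := Complex.exists_root (f := p) (Polynomial.natDegree_pos_iff_degree_pos.1
      (Nat.pos_of_ne_zero h0))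
    obtain ⟨q, hq⟩ := Polynomial.dvd_iff_isRoot.2 hr
    have hq0 : q ≠ 0 := by rintro rfl; simp [hq] at hp0
    have hdeg : q.natDegree ≤ d := by
      rw [hq, Polynomial.natDegree_mul (Polynomial.X_sub_C_ne_zero r) hq0,
        Polynomial.natDegree_X_sub_C] at hp
      omega
    have hr0 : r ≠ 0 := by rintro rfl; exact hp0 hr
    obtain ⟨ρ, hρ⟩ := ih q hdeg (fun h => hp0 (by rw [hq, Polynomial.eval_mul, h, mul_zero]))
      fun z hz' => hz z (by rw [hq, Polynomial.eval_mul, hz', mul_zero])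
    have hre : ((r.re : ℝ) : ℂ) = r := Complex.ext rfl (by simpa using (hz r hr).symm)
    refine ⟨Fin.cons (-(r.re)⁻¹) ρ, fun s => ?_⟩
    rw [Fin.prod_univ_succ, hq]
    simp only [Polynomial.eval_mul, Polynomial.eval_sub, Polynomial.eval_X, Polynomial.eval_C,
      Fin.cons_zero, Fin.cons_succ, Complex.ofReal_neg, Complex.ofReal_inv, hre]
    rw [hρ s]
    field_simp
    ring

theorem natDegree_pl {f : MvPolynomial (Fin n) ℝ} {d : ℕ} (hd : f.IsHomogeneous d)
    (x y : Fin n → ℂ) : (pl x y f).natDegree ≤ d := by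
  unfold pl
  rw [← MvPolynomial.aeval_map_algebraMap ℂ]
  have := MvPolynomial.aeval_natDegree_le (n := 1) _ (hd.map (algebraMap ℝ ℂ)).totalDegree_le
    (fun i => Polynomial.C (x i) + Polynomial.C (y i) * Polynomial.X) fun i => by
      compute_degree
  simpa using this

theorem factor {V : Set (Fin n → ℝ)} {L : Submodule ℝ (Fin n → ℝ)}
    (hVL : ∀ e ∈ V, ∀ y ∈ L, e + y ∈ V) {e m0 m1 α : Fin n → ℝ} (he : e ∈ V)
    (hfr : ∀ x, x - ((m0 ⬝ᵥ x) • e + (m1 ⬝ᵥ x) • α) ∈ L) {f : MvPolynomial (Fin n) ℝ}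
    (hf : f ∈ HV V) :
    ∃ (d : ℕ) (c : ℝ) (ρ : Fin d → ℝ), f = c • F (lin m0) (lin m1) ρ := by
  obtain ⟨d, hd⟩ := hf.1
  have hg := good_of_mem (Or.inl hf) he α
  set p := pl (fun i => (e i : ℂ)) (fun i => (α i : ℂ)) f with hp
  have hp0 : p.eval 0 = ((MvPolynomial.eval e f : ℝ) : ℂ) := by
    rw [hp, eval_pl]; simp only [zero_mul, add_zero, aeval_ofReal]
  have hp0' : p.eval 0 ≠ 0 := by rw [hp0]; exact_mod_cast (hf.2 e he).1
  obtain ⟨ρ, hρ⟩ := factor_univariate d p (natDegree_pl hd _ _) hp0' fun z hz => by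
    rcases hg with hg | hg
    · exact absurd (by rw [hg]; simp) hp0'
    · by_contra h
      exact hg z (Or.inl h) hz
  have key : ∀ u v : ℝ, MvPolynomial.eval (u • e + v • α) f
      = MvPolynomial.eval e f * ∏ i, (u + ρ i * v) := by
    intro u v
    have h1 : (fun u : ℝ => MvPolynomial.eval (u • e + v • α) f)
        = fun u => MvPolynomial.eval e f * ∏ i, (u + ρ i * v) := by
      refine Continuous.ext_on (dense_compl_singleton (0 : ℝ))
        ((MvPolynomial.continuous_eval f).comp (by fun_prop)) (by fun_prop) fun u hu => ?_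
      have hu0 : (u : ℂ) ≠ 0 := by exact_mod_cast hu
      have h2 := hρ ((v : ℂ) / u)
      rw [hp0, hp, eval_pl] at h2
      have h3 := aeval_scale hd (u : ℂ) fun i => (e i : ℂ) + (v : ℂ) / u * α i
      have h4 : (fun i => (u : ℂ) * ((e i : ℂ) + (v : ℂ) / u * α i))
          = fun i => (((u • e + v • α) i : ℝ) : ℂ) := by
        ext i
        simp only [Pi.add_apply, Pi.smul_apply, smul_eq_mul, Complex.ofReal_add,
          Complex.ofReal_mul]
        field_simp
      rw [h4, aeval_ofReal, h2] at h3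
      apply Complex.ofReal_injective
      simp only [h3, Complex.ofReal_mul, Complex.ofReal_prod, Complex.ofReal_add]
      have h5 : ∏ i, ((u : ℂ) + ρ i * v) = ∏ i : Fin d, ((u : ℂ) * (1 + ρ i * ((v : ℂ) / u))) :=
        Finset.prod_congr rfl fun i _ => by field_simp
      rw [h5, Finset.prod_mul_distrib, Finset.prod_const, Finset.card_univ, Fintype.card_fin]
      ring
    exact congrFun h1 u
  refine ⟨d, MvPolynomial.eval e f, ρ, MvPolynomial.funext fun x => ?_⟩
  have h1 := invariance hf (e := e) (y := x - ((m0 ⬝ᵥ x) • e + (m1 ⬝ᵥ x) • α))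
    (fun r => hVL e he _ (L.smul_mem r (hfr x))) ((m0 ⬝ᵥ x) • e + (m1 ⬝ᵥ x) • α)
  rw [add_sub_cancel, key] at h1
  rw [h1, MvPolynomial.smul_eval, F, map_prod]
  simp only [map_add, MvPolynomial.smul_eval, eval_lin]

theorem const_of_zero_mem {V : Set (Fin n → ℝ)} (h0 : (0 : Fin n → ℝ) ∈ V)
    {f : MvPolynomial (Fin n) ℝ} (hf : f ∈ HV V) : ∃ c : ℝ, f = c • 1 := by
  obtain ⟨d, hd⟩ := hf.1
  refine ⟨MvPolynomial.eval 0 f, MvPolynomial.funext fun x => ?_⟩
  have h1 := aeval_scale hd (0 : ℝ) x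
  have h2 := (hf.2 0 h0).1
  simp only [zero_mul] at h1
  have h3 : MvPolynomial.eval (0 : Fin n → ℝ) f = 0 ^ d * MvPolynomial.eval x f := h1
  rcases Nat.eq_zero_or_pos d with h | h
  · rw [h3, h, MvPolynomial.smul_eval, map_one, pow_zero, one_mul, mul_one]
  · rw [h3, zero_pow h.ne', zero_mul] at h2
    exact absurd rfl h2

end Pool.Agent.MP_3d209c_an.H71
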