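import Pool.Agent.MP_3d209c_an.H71.Closed
import Pool.Agent.MP_3d209c_an.H71.Source

/-!
The set of bad points is closed; the sharp theorem for an arbitrary box.
-/

open Finset Set Filter Topology Polynomial

namespace Pool.Agent.MP_3d209c_an.H71

variable {A : Type*} [CommRing A] [Algebra ℝ A] {ι : Type*} [Fintype ι] [DecidableEq ι]

theorem bad_closed (m0 m1 : A) (T : A →ₗ[ℝ] ℂ[X]) {a b : ι → ℝ} (hab : ∀ i, a i < b i)
    (hpos : ∀ t ∈ Icc a b, 0 ≤ lam T (F m0 m1 t))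
    (hN : ∀ t ∈ Icc a b, lam T (F m0 m1 t) = 0 → T (F m0 m1 t) = 0) {s0 : ℂ}
    (hs : s0 ∈ closure (Bad m0 m1 T a b)) : s0 ∈ Bad m0 m1 T a b := by
  classical
  obtain ⟨u, hu, hle⟩ := mem_closure_iff_ultrafilter.1 hs
  have hτ : ∀ s ∈ Bad m0 m1 T a b, ∃ t ∈ Icc a b, (T (F m0 m1 t)).eval s = 0 ∧
      lam T (F m0 m1 t) ≠ 0 := fun s hs => hs
  choose! τ hτ1 hτ2 hτ3 using hτ
  have hu' : ∀ᶠ s in (u : Filter ℂ), s ∈ Bad m0 m1 T a b := hu
  obtain ⟨x, hx, hτx⟩ := (isCompact_Icc (a := a) (b := b)).ultrafilter_le_nhds (u.map τ)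
    (by rw [le_principal_iff]; exact hu'.mono hτ1)
  have hτx' : Tendsto τ u (𝓝 x) := hτx
  have hid : Tendsto (fun s : ℂ => s) u (𝓝 s0) := hle
  by_cases hl : lam T (F m0 m1 x) ≠ 0
  · refine ⟨x, hx, ?_, hl⟩
    have h1 := ((continuous_eval_F m0 m1 T).tendsto (s0, x)).comp (hid.prodMk_nhds hτx')
    exact tendsto_nhds_unique h1 (tendsto_const_nhds.congr' (hu'.mono fun s hs => (hτ2 s hs).symm))
  have h0 : T (F m0 m1 x) = 0 := hN x hx (not_not.1 hl)
  set Mi : Finset (Finset ι) := Finset.univ.filter (Mn m0 m1 T x) with hMi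
  have hMi' : ∀ S, S ∈ Mi ↔ Mn m0 m1 T x S := fun S => by simp [hMi]
  let E : ℂ → Finset ι → ℝ := fun s S => ∏ i ∈ S, (τ s i - x i)
  let W : ℂ → ℝ := fun s => ∑ S ∈ Mi, |E s S|
  have hW0 : ∀ s, 0 ≤ W s := fun s => Finset.sum_nonneg fun _ _ => abs_nonneg _
  have hEW : ∀ s, ∀ S ∈ Mi, |E s S / W s| ≤ 1 := by
    intro s S hS
    rw [abs_div, abs_of_nonneg (hW0 s)]
    exact div_le_one_of_le₀ (Finset.single_le_sum (f := fun S => |E s S|)
      (fun _ _ => abs_nonneg _) hS) (hW0 s)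
  have hsplit : ∀ s, ∀ S S0 : Finset ι, S0 ⊆ S → E s S = E s (S \ S0) * E s S0 := fun s S S0 h =>
    (Finset.prod_sdiff h).symm
  have hW : ∀ s ∈ Bad m0 m1 T a b, W s ≠ 0 := by
    intro s hs hw
    apply hτ3 s hs
    rw [lam_apply, F_taylor m0 m1 x, map_sum, Finset.sum_eq_zero]
    · simp
    intro S _
    rw [map_smul]
    by_cases h2 : T (cS m0 m1 x S) = 0
    · rw [h2, smul_zero]
    · obtain ⟨S0, h3, h4⟩ :=
        exists_minimal_le_of_wellFoundedLT (fun S => T (cS m0 m1 x S) ≠ 0) S h2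
      have := (Finset.sum_eq_zero_iff_of_nonneg fun _ _ => abs_nonneg _).1 hw S0 ((hMi' _).2 h4)
      have h5 : E s S = 0 := by rw [hsplit s S S0 h3, abs_eq_zero.1 this, mul_zero]
      change E s S • _ = 0
      rw [h5, zero_smul]
  let ξ : ℂ → Finset ι → ℝ := fun s S => if S ∈ Mi then E s S / W s else 0
  obtain ⟨y, -, hξ⟩ := (isCompact_Icc (a := fun _ : Finset ι => (-1 : ℝ))
    (b := fun _ => 1)).ultrafilter_le_nhds (u.map ξ) (by
      rw [le_principal_iff]
      refine Filter.mem_map.2 (Filter.univ_mem' fun s => ⟨fun S => ?_, fun S => ?_⟩)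
      · simp only [ξ]
        split_ifs with h
        · exact (abs_le.1 (hEW s S h)).1
        · norm_num
      · simp only [ξ]
        split_ifs with h
        · exact (abs_le.1 (hEW s S h)).2
        · norm_num)
  have hξ' : ∀ S, Tendsto (fun s => ξ s S) u (𝓝 (y S)) := tendsto_pi_nhds.1 hξ
  have hξM : ∀ S ∈ Mi, Tendsto (fun s => E s S / W s) u (𝓝 (y S)) := fun S hS => by
    simpa [ξ, hS] using hξ' S
  have hy0 : ∀ S ∉ Mi, y S = 0 := fun S hS =>
    tendsto_nhds_unique (hξ' S) (by simp [ξ, hS])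
  have hysum : ∑ S ∈ Mi, |y S| = 1 := by
    refine tendsto_nhds_unique (tendsto_finsetSum Mi fun S hS => (hξM S hS).abs)
      (tendsto_const_nhds.congr' (hu'.mono fun s hs => ?_))
    simp only [abs_div, abs_of_nonneg (hW0 s), ← Finset.sum_div]
    exact (div_self (hW s hs)).symm
  have hy : ∀ S, Mn m0 m1 T x S → 0 ≤ y S * lam T (cS m0 m1 x S) := by
    intro S hS
    refine ge_of_tendsto ((hξM S ((hMi' S).2 hS)).mul_const _) (hu'.mono fun s hs => ?_)
    have e1 := hpos _ (S.piecewise_mem_Icc_of_mem_of_mem (hτ1 s hs) hx)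
    have e2 := hS.image (t := S.piecewise (τ s) x)
      fun i hi => Finset.piecewise_eq_of_notMem _ _ _ hi
    have e3 : ∏ i ∈ S, (S.piecewise (τ s) x i - x i) = E s S :=
      Finset.prod_congr rfl fun i hi => by rw [Finset.piecewise_eq_of_mem _ _ _ hi]
    rw [lam_apply, e2, e3, eval_smul, Complex.smul_re, smul_eq_mul, ← lam_apply] at e1
    rw [div_mul_eq_mul_div]
    exact div_nonneg e1 (hW0 s)
  have hterm : ∀ S : Finset ι, Tendsto (fun s => (E s S / W s) • (T (cS m0 m1 x S)).eval s) u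
      (𝓝 (y S • (T (cS m0 m1 x S)).eval s0)) := by
    intro S
    by_cases h2 : T (cS m0 m1 x S) = 0
    · simp [h2]
    refine Tendsto.smul ?_ (((T (cS m0 m1 x S)).continuous.tendsto s0).comp hid)
    by_cases hS : S ∈ Mi
    · exact hξM S hS
    obtain ⟨S0, h3, h4⟩ :=
      exists_minimal_le_of_wellFoundedLT (fun S => T (cS m0 m1 x S) ≠ 0) S h2
    have hne : (S \ S0).Nonempty := by
      rw [Finset.sdiff_nonempty]
      intro h5
      exact hS ((hMi' S).2 (Finset.Subset.antisymm h3 h5 ▸ h4))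
    have h5 : Tendsto (fun s => E s (S \ S0)) u (𝓝 0) := by
      have := tendsto_finsetProd (S \ S0) fun i _ =>
        (tendsto_pi_nhds.1 hτx' i).sub_const (x i)
      rwa [Finset.prod_eq_zero hne.choose_spec (sub_self _)] at this
    have h6 := h5.mul (hξM S0 ((hMi' S0).2 h4))
    rw [zero_mul] at h6
    rw [hy0 S hS]
    refine h6.congr fun s => ?_
    rw [hsplit s S S0 h3, mul_div_assoc]
  have hzero : ∑ S ∈ Mi, y S • (T (cS m0 m1 x S)).eval s0 = 0 := by
    rw [Finset.sum_subset (Finset.subset_univ Mi) fun S _ hS => by rw [hy0 S hS, zero_smul]]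
    refine tendsto_nhds_unique (tendsto_finsetSum Finset.univ fun S _ => hterm S)
      (tendsto_const_nhds.congr' (hu'.mono fun s hs => ?_))
    have e1 := hτ2 s hs
    rw [F_taylor m0 m1 x, map_sum, eval_finsetSum] at e1
    have e2 := congrArg ((W s)⁻¹ • ·) e1
    simp only [smul_zero, Finset.smul_sum, map_smul, eval_smul, smul_smul] at e2
    simp only
    rw [← e2]
    exact Finset.sum_congr rfl fun S _ => by rw [div_eq_inv_mul]
  obtain ⟨t, ht, ρ, hρ, hT⟩ := construct m0 m1 T (lam (LinearMap.id : ℂ[X] →ₗ[ℝ] ℂ[X])) hab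
    hpos hN hx h0 y hy
  have hT' : T (F m0 m1 t) = ρ • ∑ S ∈ Mi, y S • T (cS m0 m1 x S) := by convert hT
  refine ⟨t, ht, ?_, ?_⟩
  · rw [hT', eval_smul, eval_finsetSum]
    simp only [eval_smul]
    rw [hzero, smul_zero]
  · have e1 : lam T (F m0 m1 t) = ρ * ∑ S ∈ Mi, y S * lam T (cS m0 m1 x S) := by
      change lam (LinearMap.id : ℂ[X] →ₗ[ℝ] ℂ[X]) (T (F m0 m1 t)) = _
      rw [hT', map_smul, map_sum]
      simp only [map_smul, smul_eq_mul]
      rfl
    rw [e1]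
    refine mul_ne_zero hρ.ne' fun h => ?_
    have e2 := (Finset.sum_eq_zero_iff_of_nonneg fun S hS => hy S ((hMi' S).1 hS)).1 h
    rw [Finset.sum_eq_zero fun S hS => ?_] at hysum
    · exact zero_ne_one hysum
    · rw [(mul_eq_zero.1 (e2 S hS)).resolve_right
        (((hMi' S).1 hS).ne_zero (l := lam (LinearMap.id : ℂ[X] →ₗ[ℝ] ℂ[X])) hab hN hx), abs_zero]

theorem coreC_nonneg (m0 m1 : A) (T : A →ₗ[ℝ] ℂ[X]) (hre : ∀ x, ((T x).eval 0).im = 0)
    {a b : ι → ℝ} (hab : ∀ i, a i < b i)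
    (h : ∀ t ∈ Icc a b, IsTest a b t → Good (T (F m0 m1 t)))
    (hpos : ∀ t ∈ Icc a b, 0 ≤ lam T (F m0 m1 t)) : ∀ t ∈ Icc a b, Good (T (F m0 m1 t)) :=
  good_of_not_bad m0 m1 T hre h (bad_empty m0 m1 T h isClosed_closure subset_closure
    fun _ _ hs => bad_closed m0 m1 T hab hpos (lam_step m0 m1 T hre h) hs)

theorem coreC_strict (m0 m1 : A) (T : A →ₗ[ℝ] ℂ[X]) (hre : ∀ x, ((T x).eval 0).im = 0)
    {a b : ι → ℝ} (hab : ∀ i, a i < b i)
    (h : ∀ t ∈ Icc a b, IsTest a b t → Good (T (F m0 m1 t))) :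
    ∀ t ∈ Icc a b, Good (T (F m0 m1 t)) := by
  rcases sign_cases m0 m1 T hre hab h with h1 | h1 | h1
  · exact h1
  · exact coreC_nonneg m0 m1 T hre hab h h1
  · intro t ht
    exact good_neg.1 (coreC_nonneg m0 m1 (-T) (fun x => by simpa using hre x) hab
      (fun t ht ht' => good_neg.2 (h t ht ht')) h1 t ht)

theorem coreC (m0 m1 : A) (T : A →ₗ[ℝ] ℂ[X]) (hre : ∀ x, ((T x).eval 0).im = 0)
    {a b : ι → ℝ} (h : ∀ t ∈ Icc a b, IsTest a b t → Good (T (F m0 m1 t))) :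
    ∀ t ∈ Icc a b, Good (T (F m0 m1 t)) := by
  intro t ht
  have hab : ∀ i, a i ≤ b i := fun i => (ht.1 i).trans (ht.2 i)
  let c : A := ∏ i : {i // ¬ a i < b i}, (m0 + a i • m1)
  have hF : ∀ u : ι → ℝ, (∀ i, ¬ a i < b i → u i = a i) →
      F m0 m1 u = c * F m0 m1 fun i : {i // a i < b i} => u i := by
    intro u hu
    unfold F
    rw [← Fintype.prod_subtype_mul_prod_subtype (fun i => a i < b i), mul_comm]
    congr 1
    exact Finset.prod_congr rfl fun i _ => by rw [hu i i.2]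
  have key := coreC_strict (ι := {i // a i < b i}) m0 m1 (T ∘ₗ LinearMap.mulLeft ℝ c)
    (fun x => hre _) (a := fun i => a i) (b := fun i => b i) (fun i => i.2) ?_
    (fun i => t i) ⟨fun i => ht.1 i, fun i => ht.2 i⟩
  · rw [hF t fun i hi => le_antisymm ((ht.2 i).trans (not_lt.1 hi)) (ht.1 i)]
    exact key
  · intro v hv hv'
    let u : ι → ℝ := fun i => if hi : a i < b i then v ⟨i, hi⟩ else a i
    have hu : (fun i : {i // a i < b i} => u i) = v := by
      ext i; simp [u, i.2]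
    have := h u ?_ ?_
    · rw [hF u fun i hi => by simp [u, hi], hu] at this
      exact this
    · constructor
      · intro i
        by_cases hi : a i < b i
        · simpa [u, hi] using hv.1 ⟨i, hi⟩
        · simp [u, hi]
      · intro i
        by_cases hi : a i < b i
        · simpa [u, hi] using hv.2 ⟨i, hi⟩
        · simp [u, hi, hab i]
    · intro i j e1 e2 e3 e4
      by_cases hi : a i < b i
      · by_cases hj : a j < b j
        · simp only [u, hi, hj, dif_pos] at e1 e2 e3 e4 ⊢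
          exact hv' ⟨i, hi⟩ ⟨j, hj⟩ e1 e2 e3 e4
        · simp [u, hj] at e3
      · simp [u, hi] at e1

theorem targetC {n : ℕ} (m0 m1 : A) (S : A →ₗ[ℝ] MvPolynomial (Fin n) ℝ) {V : Set (Fin n → ℝ)}
    (hV : V.Nonempty) {a b : ι → ℝ}
    (h : ∀ t ∈ Icc a b, IsTest a b t → S (F m0 m1 t) ∈ HV V ∪ {0}) :
    ∀ t ∈ Icc a b, S (F m0 m1 t) ∈ HV V ∪ {0} := by
  refine target_step m0 m1 S hV h fun e he α => ?_
  exact coreC m0 m1 ((pl (fun i => (e i : ℂ)) (fun i => (α i : ℂ))).toLinearMap ∘ₗ S)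
    (fun x => pl_im e α _) fun t ht ht' => good_of_mem (h t ht ht') he α

end Pool.Agent.MP_3d209c_an.H71
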