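import Pool.Agent.MP_3d209c_an.H71.Open
import Pool.Agent.MP_3d209c_an.H71.Defs

/-!
From univariate statements about restrictions to lines to membership in the hyperbolic class.
-/

open Finset Set Filter Topology

namespace Pool.Agent.MP_3d209c_an.H71

variable {A : Type*} [CommRing A] [Algebra ℝ A] {ι : Type*} [Fintype ι] [DecidableEq ι] {n : ℕ}

/-- Restriction of a real polynomial to the complex line `x + s y`. -/
noncomputable def pl (x y : Fin n → ℂ) : MvPolynomial (Fin n) ℝ →ₐ[ℝ] Polynomial ℂ :=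
  MvPolynomial.aeval fun i => Polynomial.C (x i) + Polynomial.C (y i) * Polynomial.X

theorem eval_pl (x y : Fin n → ℂ) (f : MvPolynomial (Fin n) ℝ) (s : ℂ) :
    (pl x y f).eval s = MvPolynomial.aeval (fun i => x i + s * y i) f := by
  unfold pl
  induction f using MvPolynomial.induction_on with
  | C a => simp [Polynomial.algebraMap_apply]
  | add p q hp hq => simp [hp, hq]
  | mul_X p i hp => simp [hp, mul_comm s]

theorem aeval_ofReal (x : Fin n → ℝ) (f : MvPolynomial (Fin n) ℝ) :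
    MvPolynomial.aeval (fun i => (x i : ℂ)) f = ((MvPolynomial.eval x f : ℝ) : ℂ) := by
  induction f using MvPolynomial.induction_on with
  | C a => simp
  | add p q hp hq => simp [hp, hq]
  | mul_X p i hp => simp [hp]

theorem aeval_scale {B : Type*} [CommRing B] [Algebra ℝ B] {f : MvPolynomial (Fin n) ℝ} {d : ℕ}
    (hf : f.IsHomogeneous d) (c : B) (x : Fin n → B) :
    MvPolynomial.aeval (fun i => c * x i) f = c ^ d * MvPolynomial.aeval x f := by
  simp only [MvPolynomial.aeval_def, MvPolynomial.eval₂_eq, Finset.mul_sum]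
  refine Finset.sum_congr rfl fun s hs => ?_
  rw [hf.degree_eq_sum_deg_support hs]
  simp only [mul_pow, Finset.prod_mul_distrib, Finset.prod_pow_eq_pow_sum]
  ring

theorem inv_im_ne_zero {s : ℂ} (hs : s.im ≠ 0) : s⁻¹.im ≠ 0 := by
  have h0 : s ≠ 0 := by rintro rfl; simp at hs
  rw [Complex.inv_im]
  exact div_ne_zero (neg_ne_zero.2 hs) (mt Complex.normSq_eq_zero.1 h0)

theorem good_of_mem {V : Set (Fin n → ℝ)} {g : MvPolynomial (Fin n) ℝ} (hg : g ∈ HV V ∪ {0})
    {e : Fin n → ℝ} (he : e ∈ V) (α : Fin n → ℝ) :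
    Good (pl (fun i => (e i : ℂ)) (fun i => (α i : ℂ)) g) := by
  rcases hg with ⟨⟨d, hd⟩, hg⟩ | hg
  · right
    intro s hs
    rw [eval_pl]
    rcases hs with hs | rfl
    · have h0 : s ≠ 0 := by rintro rfl; simp at hs
      have : (fun i => (e i : ℂ) + s * α i) = fun i => s * ((α i : ℂ) + s⁻¹ * e i) := by
        ext i; field_simp; ring
      rw [this, aeval_scale hd]
      exact mul_ne_zero (pow_ne_zero _ h0) fun h => inv_im_ne_zero hs ((hg e he).2 α _ h)
    · simp only [zero_mul, add_zero, aeval_ofReal]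
      exact_mod_cast (hg e he).1
  · left
    rw [Set.mem_singleton_iff.1 hg, map_zero]

theorem hyp_of_good {g : MvPolynomial (Fin n) ℝ} {d : ℕ} (hd : g.IsHomogeneous d)
    {e : Fin n → ℝ} (he : MvPolynomial.eval e g ≠ 0)
    (h : ∀ α : Fin n → ℝ, Good (pl (fun i => (e i : ℂ)) (fun i => (α i : ℂ)) g)) : Hyp e g := by
  refine ⟨he, fun α z hz => ?_⟩
  by_contra hz'
  have h0 : z ≠ 0 := by rintro rfl; simp at hz'
  rcases h α with h | h
  · apply he
    have := eval_pl (fun i => (e i : ℂ)) (fun i => (α i : ℂ)) g 0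
    rw [h] at this
    simp only [Polynomial.eval_zero, zero_mul, add_zero, aeval_ofReal] at this
    exact_mod_cast this.symm
  · apply h z⁻¹ (Or.inl (inv_im_ne_zero hz'))
    rw [eval_pl]
    have : (fun i => (e i : ℂ) + z⁻¹ * α i) = fun i => z⁻¹ * ((α i : ℂ) + z * e i) := by
      ext i; field_simp; ring
    rw [this, aeval_scale hd, hz, mul_zero]

/-- Evaluation at a real point as a linear map. -/
noncomputable def evl (e : Fin n → ℝ) : MvPolynomial (Fin n) ℝ →ₗ[ℝ] ℝ :=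
  (MvPolynomial.aeval e : MvPolynomial (Fin n) ℝ →ₐ[ℝ] ℝ).toLinearMap

theorem evl_apply (e : Fin n → ℝ) (f : MvPolynomial (Fin n) ℝ) :
    evl e f = MvPolynomial.eval e f := by
  simp [evl]

theorem homogeneous_step (m0 m1 : A) (S : A →ₗ[ℝ] MvPolynomial (Fin n) ℝ) {V : Set (Fin n → ℝ)}
    (hV : V.Nonempty) {a b : ι → ℝ}
    (htest : ∀ t ∈ Icc a b, IsTest a b t → S (F m0 m1 t) ∈ HV V ∪ {0}) :
    ∀ t ∈ Icc a b, ∃ d, (S (F m0 m1 t)).IsHomogeneous d := by
  obtain ⟨e, he⟩ := hV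
  intro t ht
  let l : ℕ → A →ₗ[ℝ] ℝ := fun m => evl e ∘ₗ MvPolynomial.homogeneousComponent m ∘ₗ S
  have r1 : ∀ m, l m (F m0 m1 t) = 0 →
      MvPolynomial.homogeneousComponent m (S (F m0 m1 t)) = 0 := by
    intro m
    refine real_step m0 m1 (l m) (MvPolynomial.homogeneousComponent m ∘ₗ S) ?_ t ht
    intro t ht h1 h2
    simp only [l, LinearMap.comp_apply, evl_apply] at h2 ⊢
    rcases htest t ht h1 with ⟨⟨d, hd⟩, hg⟩ | hg
    · rw [MvPolynomial.homogeneousComponent_of_mem hd] at h2 ⊢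
      split_ifs at h2 ⊢ with h
      · exact absurd h2 (hg e he).1
      · rfl
    · rw [Set.mem_singleton_iff.1 hg, map_zero]
  have r2 : ∀ m m', m ≠ m' → ∀ c : ℝ, c ≠ 0 → (l m - c • l m') (F m0 m1 t) = 0 →
      l m (F m0 m1 t) = 0 := by
    intro m m' hm c hc
    refine real_step m0 m1 (l m - c • l m') (l m) ?_ t ht
    intro t ht h1 h2
    simp only [l, LinearMap.comp_apply, evl_apply, LinearMap.sub_apply, LinearMap.smul_apply,
      smul_eq_mul] at h2 ⊢
    rcases htest t ht h1 with ⟨⟨d, hd⟩, hg⟩ | hg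
    · rw [MvPolynomial.homogeneousComponent_of_mem hd] at h2 ⊢
      rw [MvPolynomial.homogeneousComponent_of_mem hd] at h2
      by_cases h : m = d
      · have h' : ¬ m' = d := fun h' => hm (h.trans h'.symm)
        rw [if_neg h'] at h2
        simpa using h2
      · simp [h]
    · rw [Set.mem_singleton_iff.1 hg]; simp
  set g := S (F m0 m1 t) with hg
  have r3 : ∀ m m', MvPolynomial.homogeneousComponent m g ≠ 0 →
      MvPolynomial.homogeneousComponent m' g ≠ 0 → m = m' := by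
    intro m m' h1 h2
    by_contra hm
    have e1 := mt (r1 m) h1
    have e2 := mt (r1 m') h2
    refine e1 (r2 m m' hm (l m (F m0 m1 t) / l m' (F m0 m1 t)) (div_ne_zero e1 e2) ?_)
    simp only [LinearMap.sub_apply, LinearMap.smul_apply, smul_eq_mul]
    field_simp
    ring
  have r4 : ∀ s : Fin n →₀ ℕ, g.coeff s ≠ 0 →
      MvPolynomial.homogeneousComponent s.degree g ≠ 0 := by
    intro s hs h
    apply hs
    have := MvPolynomial.coeff_homogeneousComponent s.degree g s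
    rw [h, if_pos rfl] at this
    simpa using this.symm
  by_cases h0 : g = 0
  · exact ⟨0, h0 ▸ MvPolynomial.isHomogeneous_zero _ _ _⟩
  · obtain ⟨s, hs⟩ := MvPolynomial.ne_zero_iff.1 h0
    refine ⟨s.degree, fun s' hs' => ?_⟩
    rw [← r3 _ _ (r4 s' hs') (r4 s hs), Finsupp.degree_eq_weight_one]
    rfl

theorem target_step (m0 m1 : A) (S : A →ₗ[ℝ] MvPolynomial (Fin n) ℝ) {V : Set (Fin n → ℝ)}
    (hV : V.Nonempty) {a b : ι → ℝ}
    (htest : ∀ t ∈ Icc a b, IsTest a b t → S (F m0 m1 t) ∈ HV V ∪ {0})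
    (hgood : ∀ e ∈ V, ∀ α : Fin n → ℝ, ∀ t ∈ Icc a b,
      Good (pl (fun i => (e i : ℂ)) (fun i => (α i : ℂ)) (S (F m0 m1 t)))) :
    ∀ t ∈ Icc a b, S (F m0 m1 t) ∈ HV V ∪ {0} := by
  intro t ht
  by_cases h0 : S (F m0 m1 t) = 0
  · exact Or.inr h0
  obtain ⟨d, hd⟩ := homogeneous_step m0 m1 S hV htest t ht
  refine Or.inl ⟨⟨d, hd⟩, fun e he => hyp_of_good hd ?_ fun α => hgood e he α t ht⟩
  intro hz
  refine h0 (real_step m0 m1 (evl e ∘ₗ S) S ?_ t ht (by simpa [evl_apply] using hz))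
  intro t ht h1 h2
  rcases htest t ht h1 with ⟨_, hg⟩ | hg
  · exact absurd (by simpa [evl_apply] using h2) (hg e he).1
  · exact hg

theorem pl_im (e α : Fin n → ℝ) (g : MvPolynomial (Fin n) ℝ) :
    ((pl (fun i => (e i : ℂ)) (fun i => (α i : ℂ)) g).eval 0).im = 0 := by
  rw [eval_pl]
  simp only [zero_mul, add_zero, aeval_ofReal, Complex.ofReal_im]

theorem targetA (m0 m1 : A) (S : A →ₗ[ℝ] MvPolynomial (Fin n) ℝ) {V : Set (Fin n → ℝ)}
    (hV : V.Nonempty) {a b : ι → ℝ}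
    (h : ∀ η : ℝ, 0 ≤ η → η < 1 / 2 → ∀ t ∈ Icc (shr a b η) (shr a b (1 - η)),
      IsTest (shr a b η) (shr a b (1 - η)) t → S (F m0 m1 t) ∈ HV V ∪ {0}) :
    ∀ t ∈ Icc a b, S (F m0 m1 t) ∈ HV V ∪ {0} := by
  have htest := h 0 le_rfl (by norm_num)
  rw [shr_zero, shr_one] at htest
  refine target_step m0 m1 S hV htest fun e he α => ?_
  exact coreA m0 m1 ((pl (fun i => (e i : ℂ)) (fun i => (α i : ℂ))).toLinearMap ∘ₗ S)
    (fun x => pl_im e α _) fun η h0 h1 t ht ht' => good_of_mem (h η h0 h1 t ht ht') he α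

end Pool.Agent.MP_3d209c_an.H71
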